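import Mathlib

set_option autoImplicit false

/-!
Choosing a diagonal perturbation making finitely many matrices invertible.
-/

namespace Pool.Agent.Helper88.SL

open MvPolynomial Matrix Finset

theorem exists_lambda {D K : Type*} [Finite D] [Field K] [Finite K]
    {I : Type*} [Fintype I] (C : I → Type*) [∀ i, Fintype (C i)] [∀ i, DecidableEq (C i)]
    (d : ∀ i, C i → D) (hd : ∀ i, Function.Injective (d i)) (S : ∀ i, Matrix (C i) (C i) K)
    (hK : Fintype.card I + 1 < Nat.card K) :
    ∃ l : D → K, (∀ x, l x ≠ 0) ∧
      ∀ i, (Matrix.diagonal (fun c => l (d i c)) + S i).det ≠ 0 := by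
  classical
  have : Fintype K := Fintype.ofFinite K
  have : Fintype D := Fintype.ofFinite D
  let N : ∀ i, Matrix (C i) (C i) (MvPolynomial D K) := fun i =>
    Matrix.diagonal (fun c => X (d i c)) + (S i).map MvPolynomial.C
  let P : MvPolynomial D K := (∏ x, X x) * ∏ i, (N i).det
  have hne : P ≠ 0 := by
    refine mul_ne_zero (Finset.prod_ne_zero_iff.mpr fun x _ => X_ne_zero x)
      (Finset.prod_ne_zero_iff.mpr fun i _ h => ?_)
    have h1 : ((MvPolynomial.aeval (fun _ : D => (Polynomial.X : Polynomial K)) :
        MvPolynomial D K →ₐ[K] Polynomial K) (N i).det) = (-(S i)).charpoly := by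
      rw [AlgHom.map_det, Matrix.charpoly]
      congr 1
      ext a b
      simp only [N, AlgHom.mapMatrix_apply, Matrix.map_apply, Matrix.add_apply,
        Matrix.charmatrix_apply, Matrix.neg_apply, map_add, map_neg, sub_neg_eq_add,
        MvPolynomial.aeval_C]
      by_cases hab : a = b
      · subst hab
        simp
      · simp [hab]
    rw [h, map_zero] at h1
    exact (Matrix.charpoly_monic (-(S i))).ne_zero h1.symm
  by_contra hcon
  push Not at hcon
  apply hne
  refine MvPolynomial.eq_zero_of_eval_zero_at_prod_finset P (fun _ => Finset.univ) ?_ ?_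
  · intro x
    rw [Finset.card_univ, ← Nat.card_eq_fintype_card]
    refine lt_of_le_of_lt ?_ hK
    rw [add_comm]
    refine (degreeOf_mul_le _ _ _).trans (add_le_add ?_ ?_)
    · refine (degreeOf_prod_le _ _ _).trans ?_
      have h0 : ∀ y ∈ (Finset.univ : Finset D), (X y : MvPolynomial D K).degreeOf x ≤
          if y = x then 1 else 0 := by
        intro y _
        rw [degreeOf_X]
        by_cases h : x = y
        · simp [h]
        · simp [h]
      refine (Finset.sum_le_sum h0).trans ?_
      simp
    refine (degreeOf_prod_le _ _ _).trans ?_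
    have hdeg : ∀ i ∈ (Finset.univ : Finset I), (N i).det.degreeOf x ≤ 1 := by
      intro i _
      rw [Matrix.det_apply]
      refine (degreeOf_sum_le _ _ _).trans (Finset.sup_le fun σ _ => ?_)
      have h2 : (Equiv.Perm.sign σ • ∏ c, N i (σ c) c).degreeOf x ≤
          (∏ c, N i (σ c) c).degreeOf x := by
        rcases Int.units_eq_one_or (Equiv.Perm.sign σ) with h | h
        · rw [h, one_smul]
        · rw [h]
          simp [degreeOf_neg]
      refine h2.trans ((degreeOf_prod_le _ _ _).trans ?_)
      have h3 : ∀ c ∈ (Finset.univ : Finset (C i)), (N i (σ c) c).degreeOf x ≤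
          if d i c = x then 1 else 0 := by
        intro c _
        simp only [N, Matrix.add_apply, Matrix.map_apply]
        refine (degreeOf_add_le _ _ _).trans ?_
        rw [degreeOf_C]
        by_cases hc : σ c = c
        · rw [hc, Matrix.diagonal_apply_eq, degreeOf_X]
          by_cases hx : x = d i c
          · simp [hx]
          · simp [hx]
        · rw [Matrix.diagonal_apply_ne _ hc]
          simp
      refine (Finset.sum_le_sum h3).trans ?_
      rw [← Finset.card_filter]
      rw [Finset.card_le_one]
      intro a ha b hb
      simp only [Finset.mem_filter, Finset.mem_univ, true_and] at ha hb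
      exact hd i (ha.trans hb.symm)
    refine (Finset.sum_le_sum hdeg).trans ?_
    simp
  · intro l _
    rw [map_mul]
    by_cases hl : ∀ x, l x ≠ 0
    swap
    · push Not at hl
      obtain ⟨x, hx⟩ := hl
      rw [map_prod, Finset.prod_eq_zero (Finset.mem_univ x), zero_mul]
      rw [eval_X, hx]
    obtain ⟨i, hi⟩ := hcon l hl
    apply mul_eq_zero_of_right
    rw [map_prod]
    refine Finset.prod_eq_zero (Finset.mem_univ i) ?_
    rw [RingHom.map_det, ← hi]
    congr 1
    ext a b
    simp only [N, RingHom.mapMatrix_apply, Matrix.map_apply, Matrix.add_apply, map_add,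
      MvPolynomial.eval_C]
    by_cases hab : a = b
    · subst hab
      simp
    · simp [hab]

end Pool.Agent.Helper88.SL
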