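import Mathlib
import Pool.Agent.Helper88.SL.Lam

set_option autoImplicit false

/-!
The tensor lemma in coordinates.
-/

namespace Pool.Agent.Helper88.SL

open Finset Function Module

theorem exists_D {ι : Type*} [Fintype ι] [DecidableEq ι] (a : ι → ℕ) (ha : ∀ i, 0 < a i) (i₀ : ι)
    (hmax : ∀ i, a i ≤ a i₀) :
    ∃ D : Finset (∀ i, Fin (a i)), (∀ d ∈ D, ∀ d' ∈ D, d i₀ = d' i₀ → d = d') ∧
      (∀ d ∈ D, ∀ d' ∈ D, (∀ l, l ≠ i₀ → d l = d' l) → d = d') ∧
      (∀ l, l ≠ i₀ → ∀ c : Fin (a l), ∃ d ∈ D, d l = c) ∧
      (D.card = a i₀ ∨ ∀ m : ∀ i, Fin (a i), ∃ d ∈ D, ∀ l, l ≠ i₀ → d l = m l) := by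
  classical
  let X' := ∀ l : {l // l ≠ i₀}, Fin (a l)
  let δ : Fin (a i₀) → X' := fun j l => ⟨min j (a l - 1), by
    have := ha l
    omega⟩
  let E₀ : Finset X' := Finset.univ.image δ
  have h1 : E₀.card ≤ a i₀ := by
    refine Finset.card_image_le.trans ?_
    simp
  have h2 : E₀.card ≤ Fintype.card X' := Finset.card_le_univ _
  obtain ⟨D', hED, hD'⟩ := Finset.exists_superset_card_eq (s := E₀)
    (n := min (a i₀) (Fintype.card X')) (le_min h1 h2) (min_le_right _ _)
  have hcard : Fintype.card D' ≤ Fintype.card (Fin (a i₀)) := by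
    rw [Fintype.card_coe, hD', Fintype.card_fin]
    exact min_le_left _ _
  obtain ⟨g⟩ := Function.Embedding.nonempty_of_card_le hcard
  let glue : D' → (∀ i, Fin (a i)) := fun x l =>
    if h : l = i₀ then h ▸ g x else x.1 ⟨l, h⟩
  have glue0 : ∀ x, glue x i₀ = g x := by
    intro x
    simp [glue]
  have glue1 : ∀ x l (h : l ≠ i₀), glue x l = x.1 ⟨l, h⟩ := by
    intro x l h
    simp [glue, h]
  have hglue : Injective glue := by
    intro x y hxy
    apply g.injective
    rw [← glue0, ← glue0, hxy]
  refine ⟨Finset.univ.image glue, ?_, ?_, ?_, ?_⟩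
  · intro d hd d' hd' h
    obtain ⟨x, -, rfl⟩ := Finset.mem_image.mp hd
    obtain ⟨y, -, rfl⟩ := Finset.mem_image.mp hd'
    rw [glue0, glue0] at h
    rw [g.injective h]
  · intro d hd d' hd' h
    obtain ⟨x, -, rfl⟩ := Finset.mem_image.mp hd
    obtain ⟨y, -, rfl⟩ := Finset.mem_image.mp hd'
    have : x = y := by
      apply Subtype.ext
      funext l
      have := h l l.2
      rwa [glue1 _ _ l.2, glue1 _ _ l.2] at this
    rw [this]
  · intro l hl c
    have hc : (c : ℕ) < a i₀ := lt_of_lt_of_le c.2 (hmax l)
    refine ⟨glue ⟨δ ⟨c, hc⟩, hED (Finset.mem_image_of_mem _ (Finset.mem_univ _))⟩,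
      Finset.mem_image_of_mem _ (Finset.mem_univ _), ?_⟩
    rw [glue1 _ _ hl]
    apply Fin.ext
    simp only [δ]
    have := c.2
    omega
  · rw [Finset.card_image_of_injective _ hglue, Finset.card_univ, Fintype.card_coe, hD']
    rcases le_total (a i₀) (Fintype.card X') with h | h
    · left
      exact min_eq_left h
    · right
      rw [min_eq_right h] at hD'
      have huniv : D' = Finset.univ := Finset.eq_univ_of_card _ hD'
      intro m
      refine ⟨glue ⟨fun l => m l, by rw [huniv]; exact Finset.mem_univ _⟩,
        Finset.mem_image_of_mem _ (Finset.mem_univ _), ?_⟩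
      intro l hl
      rw [glue1 _ _ hl]

theorem exists_basis_span {K V : Type*} [Field K] [AddCommGroup V] [Module K V]
    [FiniteDimensional K V] {n : ℕ} (hn : finrank K V = n) (U : Submodule K V) (J : Finset (Fin n))
    (hU : finrank K U ≤ J.card) :
    ∃ z : Basis (Fin n) K V, U ≤ Submodule.span K (z '' J) := by
  classical
  have hcard : Fintype.card (Fin (finrank K U)) ≤ Fintype.card J := by
    rw [Fintype.card_fin, Fintype.card_coe]
    exact hU
  obtain ⟨f0⟩ := Function.Embedding.nonempty_of_card_le hcard
  let f : Fin (finrank K U) → Fin n := fun k => (f0 k : Fin n)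
  have hf : Injective f := fun x y h => f0.injective (Subtype.ext h)
  obtain ⟨W, hW⟩ := Submodule.exists_isCompl U
  have hfr : finrank K U + finrank K W = n := by
    rw [← hn]
    exact Submodule.finrank_add_eq_of_isCompl hW
  let C := {c : Fin n // c ∉ Set.range f}
  have hC : Fintype.card C = finrank K W := by
    have h1 := Fintype.card_subtype_compl (fun c : Fin n => c ∈ Set.range f)
    have h2 : Fintype.card {c : Fin n // c ∈ Set.range f} = finrank K U := by
      have := Set.card_range_of_injective hf
      rw [Fintype.card_fin] at this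
      convert! this
    have h3 : Fintype.card C = Fintype.card (Fin n) -
        Fintype.card {c : Fin n // c ∈ Set.range f} := by
      convert! h1
    rw [h3, h2, Fintype.card_fin]
    omega
  let bU : Basis (Fin (finrank K U)) K U := Module.finBasis K U
  let bC : Basis C K W := (Module.finBasis K W).reindex (Fintype.equivOfCardEq (by
    rw [hC, Fintype.card_fin]))
  let b : Basis (Fin (finrank K U) ⊕ C) K V := (bU.prod bC).map
    (Submodule.prodEquivOfIsCompl U W hW)
  let σ : Fin (finrank K U) ⊕ C ≃ Fin n :=
    (Equiv.sumCongr (Equiv.ofInjective f hf) (Equiv.refl _)).trans (Equiv.Set.sumCompl (Set.range f))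
  refine ⟨b.reindex σ, ?_⟩
  have h3 : ∀ k, (bU k : V) ∈ Submodule.span K ((b.reindex σ) '' J) := by
    intro k
    apply Submodule.subset_span
    refine ⟨f k, (f0 k).2, ?_⟩
    have h4 : σ.symm (f k) = Sum.inl k := by
      rw [Equiv.symm_apply_eq]
      rfl
    rw [Basis.reindex_apply, h4]
    simp [b]
  intro x hx
  have h5 := bU.sum_repr ⟨x, hx⟩
  have h6 : x = ∑ k, bU.repr ⟨x, hx⟩ k • (bU k : V) := by
    have h7 := congrArg (Subtype.val) h5
    rw [Submodule.coe_sum] at h7
    exact h7.symm
  rw [h6]
  exact Submodule.sum_mem _ fun k _ => Submodule.smul_mem _ _ (h3 k)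

/-- Contraction in the `i`-th direction. -/
def con {ι : Type*} [DecidableEq ι] {a : ι → ℕ} {K : Type*} [Field K] (i : ι)
    (ρ : Fin (a i) → K) (f : (∀ i, Fin (a i)) → K) : (∀ i, Fin (a i)) → K :=
  fun m => ∑ c, ρ c * f (update m i c)

theorem coord_lemma {ι : Type*} [Fintype ι] [DecidableEq ι] {a : ι → ℕ} (ha : ∀ i, 0 < a i)
    {K : Type*} [Field K] [Finite K] (hK : Fintype.card ι < Nat.card K)
    (w u : ι → (∀ i, Fin (a i)) → K) :
    ∃ v : (∀ i, Fin (a i)) → K, ∀ i, ∀ ρ : Fin (a i) → K,
      con i ρ (v + w i) = 0 → con i ρ (u i) = 0 := by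
  classical
  rcases isEmpty_or_nonempty ι with hι | hι
  · exact ⟨0, fun i => hι.elim i⟩
  obtain ⟨i₀, -, hmax⟩ := Finset.exists_max_image Finset.univ a
    ⟨Classical.arbitrary ι, Finset.mem_univ _⟩
  replace hmax : ∀ i, a i ≤ a i₀ := fun i => hmax i (Finset.mem_univ _)
  obtain ⟨D, hD0, hD1, hD2, hD3⟩ := exists_D a ha i₀ hmax
  let col : (∀ i, Fin (a i)) → Fin (a i₀) → K := fun m c => u i₀ (update m i₀ c)
  let U : Submodule K (Fin (a i₀) → K) := Submodule.span K (Set.range col)
  let J : Finset (Fin (a i₀)) := D.image (fun d => d i₀)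
  have hJ : J.card = D.card := Finset.card_image_of_injOn fun d hd d' hd' h => hD0 d hd d' hd' h
  have hU : finrank K U ≤ J.card := by
    rw [hJ]
    rcases hD3 with h | h
    · rw [h]
      refine (Submodule.finrank_le U).trans ?_
      simp
    · have h1 : U ≤ Submodule.span K ((D.image col : Finset (Fin (a i₀) → K)) : Set _) := by
        apply Submodule.span_mono
        rintro _ ⟨m, rfl⟩
        obtain ⟨d, hd, hdm⟩ := h m
        rw [Finset.coe_image]
        refine ⟨d, hd, ?_⟩
        funext c
        simp only [col]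
        congr 1
        funext l
        by_cases hl : l = i₀
        · subst hl
          simp
        · rw [update_of_ne hl, update_of_ne hl, hdm l hl]
      exact (Submodule.finrank_mono h1).trans ((finrank_span_finset_le_card _).trans
        Finset.card_image_le)
  obtain ⟨z, hz⟩ := exists_basis_span (K := K) (V := Fin (a i₀) → K) (n := a i₀) (by simp) U J hU
  -- the change of coordinates
  let G : ((∀ i, Fin (a i)) → K) →ₗ[K] ((∀ i, Fin (a i)) → K) :=
    { toFun := fun f m => ∑ j, z j (m i₀) * f (update m i₀ j)
      map_add' := by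
        intro f g
        funext m
        simp [mul_add, Finset.sum_add_distrib]
      map_smul' := by
        intro k f
        funext m
        simp only [Pi.smul_apply, smul_eq_mul, RingHom.id_apply, Finset.mul_sum]
        refine Finset.sum_congr rfl fun j _ => ?_
        ring }
  have hGapp : ∀ f m, G f m = ∑ j, z j (m i₀) * f (update m i₀ j) := fun f m => rfl
  have hGinj : Injective G := by
    rw [injective_iff_map_eq_zero]
    intro f hf
    funext m
    have h1 : ∑ j, f (update m i₀ j) • z j = 0 := by
      funext c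
      have h2 := congrFun hf (update m i₀ c)
      rw [hGapp] at h2
      simp only [update_self, update_idem, Pi.zero_apply] at h2
      simp only [Finset.sum_apply, Pi.smul_apply, smul_eq_mul, Pi.zero_apply]
      rw [← h2]
      refine Finset.sum_congr rfl fun j _ => mul_comm _ _
    have h3 := Fintype.linearIndependent_iff.mp z.linearIndependent _ h1 (m i₀)
    rwa [update_eq_self] at h3
  have hGsurj : Surjective G := LinearMap.injective_iff_surjective.mp hGinj
  choose Ginv hGinv using hGsurj
  have hGcon : ∀ i, i ≠ i₀ → ∀ (ρ : Fin (a i) → K) f, con i ρ (G f) = G (con i ρ f) := by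
    intro i hi ρ f
    funext m
    rw [hGapp]
    simp only [con, hGapp]
    simp only [Finset.mul_sum]
    rw [Finset.sum_comm]
    refine Finset.sum_congr rfl fun j _ => Finset.sum_congr rfl fun c _ => ?_
    rw [update_of_ne (Ne.symm hi), update_comm hi]
    ring
  have hGcon0 : ∀ (ρ : Fin (a i₀) → K) f,
      con i₀ ρ (G f) = con i₀ (fun j => ∑ c, ρ c * z j c) f := by
    intro ρ f
    funext m
    simp only [con, hGapp, update_self, update_idem, Finset.mul_sum, Finset.sum_mul]
    rw [Finset.sum_comm]
    refine Finset.sum_congr rfl fun j _ => Finset.sum_congr rfl fun c _ => ?_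
    ring
  -- diagonal elements
  let di : ∀ i : ι, Fin (a i) → (∀ i, Fin (a i)) := fun i c =>
    if h : i = i₀ then fun _ => ⟨0, ha _⟩ else (hD2 i h c).choose
  have hdi : ∀ i (h : i ≠ i₀) c, di i c ∈ D ∧ di i c i = c := by
    intro i h c
    simp only [di, dif_neg h]
    exact (hD2 i h c).choose_spec
  -- index type for the matrices
  let Idx : Type _ := {i : ι // i ≠ i₀}
  have hdd : ∀ i : Idx, Injective (fun c : Fin (a i) => (⟨di i c, (hdi i i.2 c).1⟩ : D)) := by
    intro i c c' h
    have h1 : di i c = di i c' := congrArg Subtype.val h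
    rw [← (hdi i i.2 c).2, ← (hdi i i.2 c').2, h1]
  let SS : ∀ i : Idx, Matrix (Fin (a i)) (Fin (a i)) K := fun i c' c =>
    Ginv (w i - w i₀) (update (di i c) i c')
  have hcardI : Fintype.card Idx + 1 < Nat.card K := by
    refine lt_of_le_of_lt (le_of_eq ?_) hK
    rw [Fintype.card_subtype_compl, Fintype.card_subtype_eq]
    have := Fintype.card_pos (α := ι)
    omega
  obtain ⟨l, hl0, hl⟩ := exists_lambda (D := D) (K := K) (I := Idx) (fun i => Fin (a i))
    (fun i c => ⟨di i c, (hdi i i.2 c).1⟩) hdd SS hcardI
  let y : (∀ i, Fin (a i)) → K := fun m => if h : m ∈ D then l ⟨m, h⟩ else 0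
  refine ⟨G y - w i₀, ?_⟩
  intro i ρ hρ
  by_cases hi : i = i₀
  · subst hi
    rw [sub_add_cancel, hGcon0] at hρ
    have h1 : ∀ j ∈ J, ∑ c, ρ c * z j c = 0 := by
      intro j hj
      obtain ⟨d, hd, rfl⟩ := Finset.mem_image.mp hj
      have h2 := congrFun hρ d
      simp only [con, Pi.zero_apply] at h2
      rw [Finset.sum_eq_single (d i)] at h2
      · rw [update_eq_self] at h2
        have h3 : y d ≠ 0 := by
          simp only [y, dif_pos hd]
          exact hl0 _
        exact (mul_eq_zero.mp h2).resolve_right h3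
      · intro j _ hj
        have h4 : update d i j ∉ D := by
          intro h5
          have h6 := hD1 _ h5 _ hd (fun l hl => update_of_ne hl _ _)
          apply hj
          have := congrFun h6 i
          rwa [update_self] at this
        simp only [y, dif_neg h4, mul_zero]
      · intro h
        exact absurd (Finset.mem_univ _) h
    -- the functional
    let φ : (Fin (a i) → K) →ₗ[K] K :=
      { toFun := fun x => ∑ c, ρ c * x c
        map_add' := fun x y => by simp [mul_add, Finset.sum_add_distrib]
        map_smul' := fun k x => by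
          simp only [Pi.smul_apply, smul_eq_mul, RingHom.id_apply, Finset.mul_sum]
          exact Finset.sum_congr rfl fun c _ => by ring }
    have h2 : U ≤ LinearMap.ker φ := by
      refine hz.trans (Submodule.span_le.mpr ?_)
      rintro _ ⟨j, hj, rfl⟩
      exact h1 j hj
    funext m
    have h3 : φ (col m) = 0 := h2 (Submodule.subset_span ⟨m, rfl⟩)
    exact h3
  · have h1 : G y - w i₀ + w i = G (y + Ginv (w i - w i₀)) := by
      rw [map_add, hGinv]
      abel
    rw [h1, hGcon i hi] at hρ
    have h2 : con i ρ (y + Ginv (w i - w i₀)) = 0 := by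
      apply hGinj
      rw [hρ, map_zero]
    have h3 : ρ = 0 := by
      have h4 := hl ⟨i, hi⟩
      apply Matrix.eq_zero_of_vecMul_eq_zero h4
      funext c
      have h5 := congrFun h2 (di i c)
      simp only [con, Pi.zero_apply] at h5
      rw [Pi.zero_apply, ← h5]
      change ∑ c', ρ c' * _ = _
      refine Finset.sum_congr rfl fun c' _ => ?_
      congr 1
      rw [Matrix.add_apply, Pi.add_apply]
      congr 1
      have hd := hdi i hi c
      by_cases hcc : c' = c
      · subst hcc
        rw [Matrix.diagonal_apply_eq]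
        have h6 : update (di i c') i c' = di i c' := by
          conv_rhs => rw [← update_eq_self i (di i c'), hd.2]
        rw [h6]
        simp only [y, dif_pos hd.1]
      · rw [Matrix.diagonal_apply_ne _ hcc]
        have h6 : update (di i c) i c' ∉ D := by
          intro h7
          have h8 := hD0 _ h7 _ hd.1 (update_of_ne (Ne.symm hi) _ _)
          apply hcc
          have h9 := congrFun h8 i
          rw [update_self, hd.2] at h9
          exact h9
        simp only [y, dif_neg h6]
    rw [h3]
    funext m
    simp [con]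

end Pool.Agent.Helper88.SL
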