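import Mathlib

set_option autoImplicit false

/-!
One factor of the outer tensor decomposition.
-/

namespace Pool.Agent.Helper88.SL

open Module

universe u

section

variable {K V : Type u} [Field K] [AddCommGroup V] [Module K V]

theorem step_aux [Finite K] [FiniteDimensional K V] [Nontrivial V]
    {R : Type*} [Ring R] [Algebra K R] [Module R V] [IsScalarTower K R V]
    (S : Set (V →ₗ[R] V))
    (hirr : ∀ W : Submodule R V, (∀ y ∈ S, ∀ w ∈ W, y w ∈ W) → W = ⊥ ∨ W = ⊤)
    (hsc : ∀ φ : V →ₗ[R] V, (∀ y ∈ S, ∀ v, φ (y v) = y (φ v)) →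
      ∃ k : K, ∀ v, φ v = k • v) :
    ∃ (a n : ℕ) (e : Basis (Fin a × Fin n) K V), 0 < a ∧ 0 < n ∧
      (∀ x : R, ∃ M : Matrix (Fin a) (Fin a) K, ∀ c k, x • (e (c, k)) = ∑ c', M c' c • e (c', k)) ∧
      (∀ y : V →ₗ[R] V,
        ∃ M : Matrix (Fin n) (Fin n) K, ∀ c k, y (e (c, k)) = ∑ k', M k' k • e (c, k')) := by
  classical
  have hart : IsArtinian R V := isArtinian_of_tower K inferInstance
  have hnoe : IsNoetherian R V := isNoetherian_of_tower K inferInstance
  have : Module.Finite R V := inferInstance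
  have hfinV : Finite V := Module.finite_of_finite K
  obtain ⟨A, hA, -⟩ := (eq_bot_or_exists_atom_le (⊤ : Submodule R V)).resolve_left top_ne_bot
  have hAs : IsSimpleModule R A := isSimpleModule_iff_isAtom.mpr hA
  -- isotypic
  have htop : isotypicComponent R V A = ⊤ := by
    have h1 := hirr (isotypicComponent R V A) (by
        intro y hy w hw
        exact LinearMap.le_comap_isotypicComponent A y hw)
    exact h1.resolve_left (bot_lt_isotypicComponent A).ne'
  have hss : IsSemisimpleModule R V := by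
    have h1 : IsSemisimpleModule R (isotypicComponent R V A) := inferInstance
    rw [htop] at h1
    exact IsSemisimpleModule.congr (Submodule.topEquiv (R := R) (M := V)).symm
  have hiso : IsIsotypicOfType R V A := IsIsotypicOfType.of_isotypicComponent_eq_top htop
  obtain ⟨n, ⟨Ψ⟩⟩ := hiso.linearEquiv_fun
  have hn : 0 < n := by
    rcases Nat.eq_zero_or_pos n with h | h
    · subst h
      exfalso
      obtain ⟨v, hv⟩ := exists_ne (0 : V)
      apply hv
      apply Ψ.injective
      exact Subsingleton.elim _ _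
    · exact h
  -- commutativity of the endomorphism ring of `A`
  have hfinA : Finite A := inferInstance
  have hfinE : Finite (Module.End R A) := Finite.of_injective (fun f : Module.End R A => (f : A → A))
    DFunLike.coe_injective
  have hcE : ∀ f g : Module.End R A, f * g = g * f := by
    let _ : DivisionRing (Module.End R A) := Module.End.instDivisionRing
    exact (Finite.isDomain_to_isField (Module.End R A)).mul_comm
  -- the endomorphisms of `A` are scalars
  have hsmR : ∀ (k : K) (f : Fin n → A), Ψ.symm (k • f) = k • Ψ.symm f := by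
    intro k f
    rw [← algebraMap_smul R k f, map_smul, algebraMap_smul]
  have hscA : ∀ δ : Module.End R A, ∃ k : K, ∀ x : A, δ x = k • x := by
    intro δ
    let δn : (Fin n → A) →ₗ[R] (Fin n → A) := LinearMap.pi fun j => δ ∘ₗ LinearMap.proj j
    have hδn : ∀ f j, δn f j = δ (f j) := fun f j => rfl
    have hcom : ∀ Y : (Fin n → A) →ₗ[R] (Fin n → A), ∀ f, Y (δn f) = δn (Y f) := by
      intro Y f
      have h1 : ∀ f : Fin n → A, f = ∑ k, Pi.single k (f k) := fun f =>
        (Finset.univ_sum_single f).symm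
      funext j
      rw [hδn]
      let y : Fin n → Module.End R A := fun k =>
        LinearMap.proj j ∘ₗ Y ∘ₗ LinearMap.single R (fun _ => A) k
      have hy : ∀ (f : Fin n → A), Y f j = ∑ k, y k (f k) := by
        intro f
        conv_lhs => rw [h1 f, map_sum]
        rw [Finset.sum_apply]
        rfl
      rw [hy, hy, map_sum]
      refine Finset.sum_congr rfl fun k _ => ?_
      rw [hδn]
      exact LinearMap.congr_fun (hcE (y k) δ) (f k)
    obtain ⟨k, hk⟩ := hsc (Ψ.symm.toLinearMap ∘ₗ δn ∘ₗ Ψ.toLinearMap) (by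
      intro y _ v
      change Ψ.symm (δn (Ψ (y v))) = y (Ψ.symm (δn (Ψ v)))
      have h1 := hcom (Ψ.toLinearMap ∘ₗ y ∘ₗ Ψ.symm.toLinearMap) (Ψ v)
      simp only [LinearMap.comp_apply, LinearEquiv.coe_coe, LinearEquiv.symm_apply_apply] at h1
      rw [← h1, LinearEquiv.symm_apply_apply])
    refine ⟨k, fun x => ?_⟩
    have h1 := hk (Ψ.symm (Pi.single ⟨0, hn⟩ x))
    simp only [LinearMap.comp_apply, LinearEquiv.coe_coe, LinearEquiv.apply_symm_apply] at h1
    rw [← hsmR] at h1
    have h2 := congrFun (Ψ.symm.injective h1) ⟨0, hn⟩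
    rw [hδn] at h2
    simpa using h2
  -- bases
  have hfdA : FiniteDimensional K A :=
    FiniteDimensional.of_injective (A.subtype.restrictScalars K) Subtype.val_injective
  let α : Basis (Fin (finrank K A)) K A := Module.finBasis K A
  let ΨK : V ≃ₗ[K] (Fin n → A) := Ψ.restrictScalars K
  let e : Basis (Fin (finrank K A) × Fin n) K V :=
    (((Pi.basis (fun _ : Fin n => α)).reindex (Equiv.sigmaEquivProd (Fin n) (Fin (finrank K A)))).reindex
      (Equiv.prodComm _ _)).map ΨK.symm
  have he : ∀ c k, e (c, k) = Ψ.symm (Pi.single k (α c)) := by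
    intro c k
    simp only [e, Basis.map_apply, Basis.reindex_apply]
    change ΨK.symm (Pi.basis (fun _ : Fin n => α) ⟨k, c⟩) = _
    rw [Pi.basis_apply]
    rfl
  refine ⟨finrank K A, n, e, ?_, hn, ?_, ?_⟩
  · have : Nontrivial A := IsSimpleModule.nontrivial R A
    exact finrank_pos
  · intro x
    choose M hM using fun c : Fin (finrank K A) => (⟨fun c' => α.repr (x • α c) c', rfl⟩ :
      ∃ f : Fin (finrank K A) → K, f = fun c' => α.repr (x • α c) c')
    refine ⟨fun c' c => M c c', fun c k => ?_⟩
    rw [he, ← map_smul, ← Pi.single_smul]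
    have h2 : x • α c = ∑ c', M c c' • α c' := by
      rw [hM]
      exact (α.sum_repr (x • α c)).symm
    rw [h2]
    have h4 : (Pi.single k (∑ c', M c c' • α c') : Fin n → A) =
        ∑ c', M c c' • Pi.single k (α c') := by
      have := map_sum (LinearMap.single K (fun _ : Fin n => A) k)
        (fun c' => M c c' • α c') Finset.univ
      simp only [map_smul] at this
      exact this
    rw [h4, map_sum]
    refine Finset.sum_congr rfl fun c' _ => ?_
    rw [hsmR, he]
  · intro y
    let Y : (Fin n → A) →ₗ[R] (Fin n → A) := Ψ.toLinearMap ∘ₗ y ∘ₗ Ψ.symm.toLinearMap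
    have hY : ∀ f, Y f = Ψ (y (Ψ.symm f)) := fun f => rfl
    choose M hM using fun (j k : Fin n) => hscA (LinearMap.proj j ∘ₗ Y ∘ₗ
      LinearMap.single R (fun _ => A) k)
    refine ⟨fun j k => M j k, fun c k => ?_⟩
    have h1 : Y (Pi.single k (α c)) = ∑ j, M j k • Pi.single j (α c) := by
      funext j
      have h2 := hM j k (α c)
      change Y (Pi.single k (α c)) j = _ at h2
      rw [h2, Finset.sum_apply, Finset.sum_eq_single j]
      · simp
      · intro j' _ hj'
        rw [Pi.smul_apply, Pi.single_eq_of_ne (Ne.symm hj'), smul_zero]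
      · intro h
        exact absurd (Finset.mem_univ _) h
    rw [he]
    have h3 : y (Ψ.symm (Pi.single k (α c))) = Ψ.symm (Y (Pi.single k (α c))) := by
      rw [hY, LinearEquiv.symm_apply_apply]
    rw [h3, h1, map_sum]
    refine Finset.sum_congr rfl fun j _ => ?_
    rw [hsmR, he]

/-- An endomorphism commuting with the subalgebra `R`, as an `R`-linear map. -/
def toR (R : Subalgebra K (Module.End K V)) (y : Module.End K V) (hy : ∀ x ∈ R, x * y = y * x) :
    V →ₗ[R] V :=
  { toFun := y
    map_add' := y.map_add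
    map_smul' := fun r v => by
      change y ((r : Module.End K V) v) = (r : Module.End K V) (y v)
      have := hy r r.2
      exact (LinearMap.congr_fun this v).symm }

lemma toR_apply (R : Subalgebra K (Module.End K V)) (y : Module.End K V)
    (hy : ∀ x ∈ R, x * y = y * x) (v : V) : toR R y hy v = y v := rfl

theorem step [Finite K] [FiniteDimensional K V] [Nontrivial V]
    (R : Subalgebra K (Module.End K V)) (S : Set (Module.End K V))
    (hcomm : ∀ x ∈ R, ∀ y ∈ S, x * y = y * x)
    (hirr : ∀ W : Submodule K V, (∀ x ∈ R, ∀ w ∈ W, x w ∈ W) → (∀ y ∈ S, ∀ w ∈ W, y w ∈ W) →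
      W = ⊥ ∨ W = ⊤)
    (hsc : ∀ φ : Module.End K V, (∀ x ∈ R, φ * x = x * φ) → (∀ y ∈ S, φ * y = y * φ) →
      ∃ k : K, φ = algebraMap K _ k) :
    ∃ (a n : ℕ) (e : Basis (Fin a × Fin n) K V), 0 < a ∧ 0 < n ∧
      (∀ x ∈ R, ∃ M : Matrix (Fin a) (Fin a) K, ∀ c k, x (e (c, k)) = ∑ c', M c' c • e (c', k)) ∧
      (∀ y : Module.End K V, (∀ x ∈ R, x * y = y * x) →
        ∃ M : Matrix (Fin n) (Fin n) K, ∀ c k, y (e (c, k)) = ∑ k', M k' k • e (c, k')) := by
  obtain ⟨a, n, e, ha, hn, h1, h2⟩ := step_aux (K := K) (V := V) (R := R)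
    {z | ∃ y, ∃ hy : y ∈ S, z = toR R y (fun x hx => hcomm x hx y hy)} (by
      intro W hW
      rcases hirr (W.restrictScalars K) (fun x hx w hw => W.smul_mem ⟨x, hx⟩ hw)
        (fun y hy w hw => hW _ ⟨y, hy, rfl⟩ w hw) with h | h
      · left
        rwa [Submodule.restrictScalars_eq_bot_iff] at h
      · right
        rwa [Submodule.restrictScalars_eq_top_iff] at h) (by
      intro φ hφ
      obtain ⟨k, hk⟩ := hsc (φ.restrictScalars K) (by
        intro x hx
        ext v
        exact φ.map_smul (⟨x, hx⟩ : R) v) (by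
        intro y hy
        ext v
        exact hφ _ ⟨y, hy, rfl⟩ v)
      refine ⟨k, fun v => ?_⟩
      have := LinearMap.congr_fun hk v
      exact this)
  refine ⟨a, n, e, ha, hn, fun x hx => h1 ⟨x, hx⟩, fun y hy => h2 (toR R y hy)⟩

end

end Pool.Agent.Helper88.SL
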