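import Mathlib
import Pool.Agent.Helper88.SL.Step

set_option autoImplicit false

/-!
Outer tensor decomposition of an absolutely irreducible module of commuting algebras.
-/

namespace Pool.Agent.Helper88.SL

open Module Function

universe u v

lemma upd_self' {α : Type*} {β : α → Type*} (inst : DecidableEq α) (f : ∀ a, β a) (a : α)
    (v : β a) : @update α β inst f a v a = v := update_self a v f

lemma upd_ne' {α : Type*} {β : α → Type*} (inst : DecidableEq α) (f : ∀ a, β a) {a a' : α}
    (h : a ≠ a') (v : β a') : @update α β inst f a' v a = f a := update_of_ne h v f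

section Lift

variable {K V : Type u} [Field K] [AddCommGroup V] [Module K V] {a n : ℕ}

/-- Coordinates of a vector. -/
noncomputable def coords (e : Basis (Fin a × Fin n) K V) : V ≃ₗ[K] (Fin a → Fin n → K) :=
  e.equivFun.trans (LinearEquiv.curry K K (Fin a) (Fin n))

lemma coords_apply (e : Basis (Fin a × Fin n) K V) (v : V) (c : Fin a) (k : Fin n) :
    coords e v c k = e.repr v (c, k) := rfl

lemma coords_basis (e : Basis (Fin a × Fin n) K V) (c : Fin a) (k : Fin n) :
    coords e (e (c, k)) = Pi.single c (Pi.single k 1) := by
  classical
  funext c' k'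
  rw [coords_apply, Basis.repr_self]
  by_cases hc : c' = c
  · subst hc
    by_cases hk : k' = k
    · subst hk
      simp
    · rw [Pi.single_eq_same, Pi.single_eq_of_ne hk, Finsupp.single_eq_of_ne]
      intro h
      exact hk (congrArg Prod.snd h)
  · rw [Pi.single_eq_of_ne hc, Finsupp.single_eq_of_ne]
    · rfl
    · intro h
      exact hc (congrArg Prod.fst h)

/-- An endomorphism of `K ^ n` acting on the second coordinate. -/
noncomputable def lift (e : Basis (Fin a × Fin n) K V) :
    Module.End K (Fin n → K) →ₐ[K] Module.End K V where
  toFun φ := (coords e).symm.toLinearMap ∘ₗ (LinearMap.pi fun c => φ ∘ₗ LinearMap.proj c) ∘ₗ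
    (coords e).toLinearMap
  map_one' := by
    ext v
    change (coords e).symm (coords e v) = v
    simp
  map_mul' φ ψ := by
    ext v
    change (coords e).symm (fun c => φ (ψ (coords e v c))) =
      (coords e).symm (fun c => φ (coords e ((coords e).symm (fun c => ψ (coords e v c))) c))
    rw [LinearEquiv.apply_symm_apply]
  map_zero' := by
    ext v
    change (coords e).symm 0 = 0
    simp
  map_add' φ ψ := by
    ext v
    change (coords e).symm (fun c => φ (coords e v c) + ψ (coords e v c)) =
      (coords e).symm (fun c => φ (coords e v c)) + (coords e).symm (fun c => ψ (coords e v c))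
    rw [← map_add]
    rfl
  commutes' k := by
    ext v
    change (coords e).symm (k • coords e v) = k • v
    simp

lemma coords_lift (e : Basis (Fin a × Fin n) K V) (φ : Module.End K (Fin n → K)) (v : V)
    (c : Fin a) : coords e (lift e φ v) c = φ (coords e v c) := by
  change coords e ((coords e).symm (fun c => φ (coords e v c))) c = _
  rw [LinearEquiv.apply_symm_apply]

lemma lift_injective (ha : 0 < a) (e : Basis (Fin a × Fin n) K V) :
    Injective (lift e) := by
  intro φ ψ h
  ext1 k
  ext1
  have h1 := coords_lift e φ ((coords e).symm (Pi.single ⟨0, ha⟩ (Pi.single k 1))) ⟨0, ha⟩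
  have h2 := coords_lift e ψ ((coords e).symm (Pi.single ⟨0, ha⟩ (Pi.single k 1))) ⟨0, ha⟩
  rw [LinearEquiv.apply_symm_apply, Pi.single_eq_same] at h1 h2
  change φ (Pi.single k 1) = ψ (Pi.single k 1)
  rw [← h1, ← h2, h]

lemma coords_first (e : Basis (Fin a × Fin n) K V) (x : Module.End K V)
    (M : Matrix (Fin a) (Fin a) K)
    (hM : ∀ c k, x (e (c, k)) = ∑ c', M c' c • e (c', k)) (v : V) (c : Fin a) :
    coords e (x v) c = ∑ c', M c c' • coords e v c' := by
  classical
  -- linear maps agreeing on a basis
  let L1 : V →ₗ[K] (Fin n → K) := LinearMap.proj c ∘ₗ (coords e).toLinearMap ∘ₗ x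
  let L2 : V →ₗ[K] (Fin n → K) := ∑ c', M c c' • (LinearMap.proj c' ∘ₗ (coords e).toLinearMap)
  have hL : L1 = L2 := by
    refine e.ext fun i => ?_
    obtain ⟨d, k⟩ := i
    simp only [L1, L2, LinearMap.comp_apply, LinearMap.sum_apply, LinearMap.smul_apply,
      LinearEquiv.coe_coe, LinearMap.proj_apply]
    rw [hM, map_sum, Finset.sum_apply, coords_basis]
    simp only [map_smul, coords_basis, Pi.smul_apply]
    rw [Finset.sum_eq_single c, Finset.sum_eq_single d]
    · rw [Pi.single_eq_same, Pi.single_eq_same]
    · intro d' _ hd'
      rw [Pi.single_eq_of_ne hd', smul_zero]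
    · intro h
      exact absurd (Finset.mem_univ _) h
    · intro d' _ hd'
      rw [Pi.single_eq_of_ne (Ne.symm hd'), smul_zero]
    · intro h
      exact absurd (Finset.mem_univ _) h
  have := LinearMap.congr_fun hL v
  simpa [L1, L2] using this

lemma eq_lift (e : Basis (Fin a × Fin n) K V) (y : Module.End K V)
    (M : Matrix (Fin n) (Fin n) K)
    (hM : ∀ c k, y (e (c, k)) = ∑ k', M k' k • e (c, k')) : y = lift e (Matrix.toLin' M) := by
  classical
  refine e.ext fun i => ?_
  obtain ⟨c, k⟩ := i
  apply (coords e).injective
  funext c'
  rw [coords_lift, hM, map_sum, Finset.sum_apply, coords_basis]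
  simp only [map_smul, coords_basis, Pi.smul_apply]
  by_cases hc : c' = c
  · subst hc
    simp only [Pi.single_eq_same]
    funext k'
    simp [Matrix.toLin'_apply, Finset.sum_apply, Pi.single_apply]
  · simp only [Pi.single_eq_of_ne hc, smul_zero, Finset.sum_const_zero, map_zero]

end Lift

open Classical in
/-- The decomposition statement for the index type `ι`. -/
def TD (K : Type u) [Field K] (ι : Type v) : Prop :=
  ∀ (V : Type u) [AddCommGroup V] [Module K V] [FiniteDimensional K V] [Nontrivial V]
    (R : ι → Subalgebra K (Module.End K V)),
    (∀ i j, i ≠ j → ∀ x ∈ R i, ∀ y ∈ R j, x * y = y * x) →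
    (∀ W : Submodule K V, (∀ i, ∀ x ∈ R i, ∀ w ∈ W, x w ∈ W) → W = ⊥ ∨ W = ⊤) →
    (∀ φ : Module.End K V, (∀ i, ∀ x ∈ R i, φ * x = x * φ) → ∃ k : K, φ = algebraMap K _ k) →
    ∃ (a : ι → ℕ) (e : Basis (∀ i, Fin (a i)) K V), (∀ i, 0 < a i) ∧
      ∀ i, ∀ x ∈ R i, ∃ M : Matrix (Fin (a i)) (Fin (a i)) K, ∀ m,
        x (e m) = ∑ c, M c (m i) • e (update m i c)

theorem tensor_decomp (K : Type u) [Field K] [Finite K] (ι : Type v) [Finite ι] : TD K ι := by
  classical
  refine Finite.induction_empty_option (P := fun ι => TD K ι) ?_ ?_ ?_ ι
  · -- equivalences
    intro α β f hα V _ _ _ _ R hc hirr hsc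
    obtain ⟨a, e, ha, he⟩ := hα V (fun i => R (f i))
      (fun i j hij => hc _ _ (fun h => hij (f.injective h)))
      (fun W hW => hirr W (fun i => by
        have := hW (f.symm i)
        rwa [f.apply_symm_apply] at this))
      (fun φ hφ => hsc φ (fun i => by
        have := hφ (f.symm i)
        rwa [f.apply_symm_apply] at this))
    refine ⟨fun b => a (f.symm b), e.reindex (Equiv.piCongrLeft' (fun i => Fin (a i)) f),
      fun b => ha _, ?_⟩
    intro b x hx
    obtain ⟨M, hM⟩ := he (f.symm b) x (by rwa [f.apply_symm_apply])
    refine ⟨M, fun m => ?_⟩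
    rw [Basis.reindex_apply, hM]
    refine Finset.sum_congr rfl fun c _ => ?_
    rw [Basis.reindex_apply, Function.piCongrLeft'_symm_update,
      Equiv.piCongrLeft'_symm_apply_apply]
  · -- empty
    intro V _ _ _ _ R hc hirr hsc
    have h1 : finrank K V = 1 := by
      obtain ⟨v, hv⟩ := exists_ne (0 : V)
      rw [finrank_eq_one_iff_of_nonzero v hv]
      rcases hirr (Submodule.span K {v}) (fun i => i.elim) with h | h
      · exfalso
        rw [Submodule.span_singleton_eq_bot] at h
        exact hv h
      · exact h
    refine ⟨fun i => i.elim, (Module.finBasisOfFinrankEq K V h1).reindex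
      (Equiv.ofUnique _ _), fun i => i.elim, fun i => i.elim⟩
  · -- option
    intro α _ hα V _ _ _ _ R hc hirr hsc
    obtain ⟨a, n, e, ha, hn, h1, h2⟩ := step (R none) {y | ∃ i, y ∈ R (some i)}
      (by
        rintro x hx y ⟨i, hi⟩
        exact hc none (some i) (by simp) x hx y hi)
      (by
        intro W hW1 hW2
        apply hirr W
        intro i
        cases i with
        | none => exact hW1
        | some i => exact fun x hx => hW2 x ⟨i, hx⟩)
      (by
        intro φ h1 h2
        apply hsc φ
        intro i
        cases i with
        | none => exact h1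
        | some i => exact fun x hx => h2 x ⟨i, hx⟩)
    have hlift : ∀ i, ∀ y ∈ R (some i), ∃ φ ∈ (R (some i)).comap (lift e), y = lift e φ := by
      intro i y hy
      obtain ⟨M, hM⟩ := h2 y (fun x hx => hc none (some i) (by simp) x hx y hy)
      have h3 := eq_lift e y M hM
      refine ⟨Matrix.toLin' M, ?_, h3⟩
      rw [Subalgebra.mem_comap, ← h3]
      exact hy
    have hnt : Nontrivial (Fin n → K) := by
      have : Nonempty (Fin n) := ⟨⟨0, hn⟩⟩
      infer_instance
    obtain ⟨a', e', ha', he'⟩ := hα (Fin n → K) (fun i => (R (some i)).comap (lift e))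
      (by
        intro i j hij x hx y hy
        apply lift_injective ha e
        rw [map_mul, map_mul]
        exact hc (some i) (some j) (by simpa using hij) _ hx _ hy)
      (by
        intro W' hW'
        let W : Submodule K V :=
          { carrier := {v | ∀ c, coords e v c ∈ W'}
            add_mem' := by
              intro v w hv hw c
              rw [map_add]
              exact W'.add_mem (hv c) (hw c)
            zero_mem' := by
              intro c
              rw [map_zero]
              exact W'.zero_mem
            smul_mem' := by
              intro k v hv c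
              rw [map_smul]
              exact W'.smul_mem k (hv c) }
        have hW : ∀ v, v ∈ W ↔ ∀ c, coords e v c ∈ W' := fun v => Iff.rfl
        have hmem : ∀ w, (coords e).symm (Pi.single ⟨0, ha⟩ w) ∈ W ↔ w ∈ W' := by
          intro w
          rw [hW]
          constructor
          · intro h
            have := h ⟨0, ha⟩
            rwa [LinearEquiv.apply_symm_apply, Pi.single_eq_same] at this
          · intro h c
            rw [LinearEquiv.apply_symm_apply]
            by_cases hc0 : c = ⟨0, ha⟩
            · subst hc0
              rwa [Pi.single_eq_same]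
            · rw [Pi.single_eq_of_ne hc0]
              exact W'.zero_mem
        rcases hirr W (by
          intro i x hx w hw
          rw [hW] at hw ⊢
          cases i with
          | none =>
            obtain ⟨M, hM⟩ := h1 x hx
            intro c
            rw [coords_first e x M hM]
            exact W'.sum_mem fun c' _ => W'.smul_mem _ (hw c')
          | some i =>
            obtain ⟨φ, hφ, rfl⟩ := hlift i x hx
            intro c
            rw [coords_lift]
            exact hW' i φ hφ _ (hw c)) with h | h
        · left
          rw [Submodule.eq_bot_iff]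
          intro w hw
          rw [← hmem, h, Submodule.mem_bot, LinearEquiv.map_eq_zero_iff] at hw
          have := congrFun hw ⟨0, ha⟩
          rwa [Pi.single_eq_same] at this
        · right
          rw [Submodule.eq_top_iff']
          intro w
          rw [← hmem, h]
          exact Submodule.mem_top)
      (by
        intro φ hφ
        obtain ⟨k, hk⟩ := hsc (lift e φ) (by
          intro i x hx
          cases i with
          | none =>
            obtain ⟨M, hM⟩ := h1 x hx
            apply LinearMap.ext
            intro v
            apply (coords e).injective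
            funext c
            change coords e (lift e φ (x v)) c = coords e (x (lift e φ v)) c
            rw [coords_lift, coords_first e x M hM, coords_first e x M hM, map_sum]
            refine Finset.sum_congr rfl fun c' _ => ?_
            rw [map_smul, coords_lift]
          | some i =>
            obtain ⟨ψ, hψ, rfl⟩ := hlift i x hx
            rw [← map_mul, ← map_mul, hφ i ψ hψ])
        refine ⟨k, lift_injective ha e ?_⟩
        rw [hk, AlgHom.commutes])
    -- the new basis
    let b : Option α → ℕ := fun o => o.elim a a'
    let e2 : Basis (Σ _ : Fin a, ∀ i, Fin (a' i)) K V :=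
      (Pi.basis (fun _ : Fin a => e')).map (coords e).symm
    let σ : (Σ _ : Fin a, ∀ i, Fin (a' i)) ≃ (∀ o, Fin (b o)) :=
      (Equiv.sigmaEquivProd _ _).trans (Equiv.piOptionEquivProd (β := fun o => Fin (b o))).symm
    have hσ : ∀ m : ∀ o, Fin (b o), σ.symm m = ⟨m none, fun i => m (some i)⟩ := fun m => rfl
    have he2 : ∀ m : ∀ o, Fin (b o), (e2.reindex σ) m =
        (coords e).symm (Pi.single (m none) (e' (fun i => m (some i)))) := by
      intro m
      rw [Basis.reindex_apply, hσ]
      simp only [e2, Basis.map_apply]
      rw [Pi.basis_apply]
    have he3 : ∀ (m : ∀ o, Fin (b o)) (c0 : Fin a) (m' : ∀ i, Fin (a' i)), m none = c0 →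
        (∀ i, m (some i) = m' i) →
        (e2.reindex σ) m = (coords e).symm (Pi.single c0 (e' m')) := by
      rintro m c0 m' rfl h
      rw [he2]
      have h3 : (fun i => m (some i)) = m' := funext h
      rw [h3]
    refine ⟨b, e2.reindex σ, ?_, ?_⟩
    · intro o
      cases o with
      | none => exact ha
      | some i => exact ha' i
    · intro o x hx
      cases o with
      | none =>
        obtain ⟨M, hM⟩ := h1 x hx
        refine ⟨M, fun m => ?_⟩
        have key : ∀ (c0 : Fin a) (w : Fin n → K), x ((coords e).symm (Pi.single c0 w)) =
            ∑ c', M c' c0 • (coords e).symm (Pi.single c' w) := by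
          intro c0 w
          apply (coords e).injective
          funext c
          rw [coords_first e x M hM, LinearEquiv.apply_symm_apply, map_sum, Finset.sum_apply]
          simp only [map_smul, LinearEquiv.apply_symm_apply, Pi.smul_apply]
          rw [Finset.sum_eq_single c0, Finset.sum_eq_single c]
          · rw [Pi.single_eq_same, Pi.single_eq_same]
          · intro c' _ hc'
            rw [Pi.single_eq_of_ne (Ne.symm hc'), smul_zero]
          · intro h
            exact absurd (Finset.mem_univ _) h
          · intro c' _ hc'
            rw [Pi.single_eq_of_ne hc', smul_zero]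
          · intro h
            exact absurd (Finset.mem_univ _) h
        rw [he2]
        refine (key (m none) _).trans (Finset.sum_congr rfl fun c' _ => ?_)
        refine congrArg (fun z => M c' (m none) • z) (Eq.symm
          (he3 _ c' (fun i => m (some i)) ?_ ?_))
        · exact upd_self' _ _ _ _
        · exact fun i => upd_ne' _ _ (by simp) _
      | some i =>
        obtain ⟨φ, hφ, rfl⟩ := hlift i x hx
        obtain ⟨M, hM⟩ := he' i φ hφ
        refine ⟨M, fun m => ?_⟩
        have key : ∀ (c0 : Fin a) (m' : ∀ i, Fin (a' i)),
            lift e φ ((coords e).symm (Pi.single c0 (e' m'))) =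
            ∑ c, M c (m' i) • (coords e).symm (Pi.single c0 (e' (update m' i c))) := by
          intro c0 m'
          apply (coords e).injective
          funext c
          rw [coords_lift, LinearEquiv.apply_symm_apply, map_sum, Finset.sum_apply]
          simp only [map_smul, LinearEquiv.apply_symm_apply, Pi.smul_apply]
          by_cases hcm : c = c0
          · subst hcm
            simp only [Pi.single_eq_same]
            exact hM _
          · simp only [Pi.single_eq_of_ne hcm, map_zero, smul_zero, Finset.sum_const_zero]
        rw [he2]
        refine (key (m none) _).trans (Finset.sum_congr rfl fun c' _ => ?_)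
        refine congrArg (fun z => M c' (m (some i)) • z) (Eq.symm
          (he3 _ (m none) (update (fun i => m (some i)) i c') ?_ ?_))
        · exact upd_ne' _ _ (by simp) _
        intro j
        by_cases hj : j = i
        · subst hj
          exact (upd_self' _ _ _ _).trans
            (upd_self' (β := fun i => Fin (a' i)) _ (fun i => m (some i)) j c').symm
        · exact (upd_ne' _ _ (by simpa using hj) _).trans
            (upd_ne' (β := fun i => Fin (a' i)) _ (fun i => m (some i)) hj c').symm

end Pool.Agent.Helper88.SL
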