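import Mathlib
import Pool.Agent.Helper88.SL.Tensor
import Pool.Agent.Helper88.SL.Coord

set_option autoImplicit false

/-!
The absolutely irreducible case.
-/

namespace Pool.Agent.Helper88.SL

open Module Function

universe u v

theorem irr_case {K V : Type u} [Field K] [Finite K] [AddCommGroup V] [Module K V]
    [FiniteDimensional K V] [Nontrivial V] {ι : Type v} [Fintype ι]
    (R : ι → Subalgebra K (Module.End K V))
    (hc : ∀ i j, i ≠ j → ∀ x ∈ R i, ∀ y ∈ R j, x * y = y * x)
    (hirr : ∀ W : Submodule K V, (∀ i, ∀ x ∈ R i, ∀ w ∈ W, x w ∈ W) → W = ⊥ ∨ W = ⊤)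
    (hsc : ∀ φ : Module.End K V, (∀ i, ∀ x ∈ R i, φ * x = x * φ) →
      ∃ k : K, φ = algebraMap K _ k)
    (hcard : Fintype.card ι < Nat.card K) (u w : ι → V) :
    ∃ v : V, ∀ i, ∀ x ∈ R i, x (v + w i) = 0 → x (u i) = 0 := by
  classical
  obtain ⟨a, e, ha, he⟩ := tensor_decomp K ι V R hc hirr hsc
  -- action in coordinates
  have hact : ∀ i, ∀ x ∈ R i, ∃ M : Matrix (Fin (a i)) (Fin (a i)) K, ∀ (v : V) (m : ∀ i, Fin (a i)),
      e.equivFun (x v) m = con i (M (m i)) (e.equivFun v) m := by
    intro i x hx
    obtain ⟨M, hM⟩ := he i x hx
    refine ⟨M, fun v m => ?_⟩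
    let L1 : V →ₗ[K] K := LinearMap.proj m ∘ₗ e.equivFun.toLinearMap ∘ₗ x
    let L2 : V →ₗ[K] K := ∑ c, M (m i) c • (LinearMap.proj (update m i c) ∘ₗ
      e.equivFun.toLinearMap)
    have hL : L1 = L2 := by
      refine e.ext fun m0 => ?_
      simp only [L1, L2, LinearMap.comp_apply, LinearMap.sum_apply, LinearMap.smul_apply,
        LinearEquiv.coe_coe, LinearMap.proj_apply]
      rw [hM, map_sum, Finset.sum_apply]
      simp only [map_smul, Pi.smul_apply, Basis.equivFun_apply, Basis.repr_self]
      by_cases hmm : ∀ l, l ≠ i → m l = m0 l
      · have h1 : ∀ c, @update ι (fun i => Fin (a i)) (fun a b => Classical.propDecidable (a = b))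
            m0 i c = m ↔ c = m i := by
          intro c
          constructor
          · intro h
            rw [← h]
            exact (upd_self' (β := fun i => Fin (a i)) _ m0 i c).symm
          · rintro rfl
            funext l
            by_cases hl : l = i
            · subst hl
              exact upd_self' _ _ _ _
            · exact (upd_ne' _ _ hl _).trans (hmm l hl).symm
        have h2 : ∀ c, update m i c = m0 ↔ c = m0 i := by
          intro c
          constructor
          · intro h
            rw [← h, update_self]
          · rintro rfl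
            funext l
            by_cases hl : l = i
            · subst hl
              rw [update_self]
            · rw [update_of_ne hl, hmm l hl]
        rw [Finset.sum_eq_single (m i), Finset.sum_eq_single (m0 i)]
        · rw [(h1 (m i)).mpr rfl, (h2 (m0 i)).mpr rfl, Finsupp.single_eq_same,
            Finsupp.single_eq_same]
        · intro c _ hcc
          rw [Finsupp.single_eq_of_ne, smul_zero]
          intro h
          exact hcc ((h2 c).mp h)
        · intro h
          exact absurd (Finset.mem_univ _) h
        · intro c _ hcc
          rw [Finsupp.single_eq_of_ne, smul_zero]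
          intro h
          exact hcc ((h1 c).mp h.symm)
        · intro h
          exact absurd (Finset.mem_univ _) h
      · push Not at hmm
        obtain ⟨l, hl, hml⟩ := hmm
        rw [Finset.sum_eq_zero, Finset.sum_eq_zero]
        · intro c _
          rw [Finsupp.single_eq_of_ne, smul_zero]
          intro h
          apply hml
          rw [← h, update_of_ne hl]
        · intro c _
          rw [Finsupp.single_eq_of_ne, smul_zero]
          intro h
          apply hml
          rw [h]
          exact upd_ne' _ _ hl _
    have := LinearMap.congr_fun hL v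
    simp only [L1, L2, LinearMap.comp_apply, LinearMap.sum_apply, LinearMap.smul_apply,
        LinearEquiv.coe_coe, LinearMap.proj_apply, smul_eq_mul] at this
    exact this
  obtain ⟨v, hv⟩ := coord_lemma ha hcard (fun i => e.equivFun (w i)) (fun i => e.equivFun (u i))
  refine ⟨e.equivFun.symm v, ?_⟩
  intro i x hx h0
  obtain ⟨M, hM⟩ := hact i x hx
  have h1 : ∀ ρ : Fin (a i), con i (M ρ) (v + e.equivFun (w i)) = 0 := by
    intro c
    funext m
    have h2 := hM (e.equivFun.symm v + w i) (update m i c)
    rw [h0, map_zero, map_add, LinearEquiv.apply_symm_apply, update_self] at h2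
    have h3 : con i (M c) (v + e.equivFun (w i)) (update m i c) =
        con i (M c) (v + e.equivFun (w i)) m := by
      simp only [con, update_idem]
    rw [h3] at h2
    exact h2.symm
  apply e.equivFun.injective
  rw [map_zero]
  funext m
  rw [hM, hv i _ (h1 (m i))]

end Pool.Agent.Helper88.SL
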