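import Mathlib
import Pool.Agent.Helper88.SL.Irr

set_option autoImplicit false

/-!
Simple modules for a group generated by commuting `p i`-subgroups.
-/

namespace Pool.Agent.Helper88.SL

open Module Function MonoidAlgebra

universe u v

theorem exists_field {A : Type*} [Ring A] {M : Type u} [AddCommGroup M] [Module A M] [Finite M]
    [IsSimpleModule A M] :
    ∃ (K : Type u) (_ : Field K) (_ : Finite K) (_ : Module K M),
      (∀ (k : K) (a : A) (m : M), a • k • m = k • a • m) ∧
      (∀ φ : M →ₗ[A] M, ∃ k : K, ∀ m, φ m = k • m) := by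
  classical
  have hfin : Finite (Module.End A M) := Finite.of_injective (fun f : Module.End A M => (f : M → M))
    DFunLike.coe_injective
  let _ : DivisionRing (Module.End A M) := Module.End.instDivisionRing
  refine ⟨Module.End A M, littleWedderburn _, hfin, Module.End.applyModule, ?_, ?_⟩
  · intro k a m
    exact (k.map_smul a m).symm
  · intro φ
    exact ⟨φ, fun m => rfl⟩

section

variable {F : Type*} [Field F] {Γ : Type*} [Group Γ] [Finite Γ]
  {ι : Type v} [Finite ι] (p : ι → ℕ) (T : ι → Subgroup Γ)

/-- Induction on elements of the group algebra. -/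
lemma smul_mem_of_gen {M : Type u} [AddCommGroup M] [Module (MonoidAlgebra F Γ) M]
    (W : AddSubgroup M)
    (hF : ∀ r : F, ∀ m ∈ W, algebraMap F (MonoidAlgebra F Γ) r • m ∈ W)
    (hG : ∀ g : Γ, ∀ m ∈ W, MonoidAlgebra.of F Γ g • m ∈ W) (a : MonoidAlgebra F Γ) :
    ∀ m ∈ W, a • m ∈ W := by
  induction a using MonoidAlgebra.induction_on with
  | of g => exact hG g
  | add x y hx hy =>
    intro m hm
    rw [add_smul]
    exact W.add_mem (hx m hm) (hy m hm)
  | smul r f hf =>
    intro m hm
    rw [Algebra.smul_def, mul_smul]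
    exact hF r _ (hf m hm)

lemma gen_induction (hgen : ⨆ i, T i = ⊤) (P : Γ → Prop) (hP : ∀ i, ∀ t ∈ T i, P t)
    (h1 : P 1) (hmul : ∀ x y, P x → P y → P (x * y)) (g : Γ) : P g := by
  have hg : g ∈ ⨆ i, T i := by rw [hgen]; exact Subgroup.mem_top g
  exact Subgroup.iSup_induction T (C := P) hg hP h1 hmul

theorem simple_case (hp : ∀ i, (p i).Prime) (hinj : Injective p) (hT : ∀ i, IsPGroup (p i) (T i))
    (hcomm : ∀ i j, i ≠ j → ∀ x ∈ T i, ∀ y ∈ T j, x * y = y * x) (hgen : ⨆ i, T i = ⊤)
    {M : Type u} [AddCommGroup M] [Module (MonoidAlgebra F Γ) M] [Finite M]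
    [IsSimpleModule (MonoidAlgebra F Γ) M] (u w : ι → M) :
    ∃ v : M, ∀ i, ∀ t ∈ T i, MonoidAlgebra.of F Γ t • (v + w i) = v + w i →
      MonoidAlgebra.of F Γ t • u i = u i := by
  classical
  obtain ⟨K, _, hKfin, _, hKA, hKsc⟩ := exists_field (A := MonoidAlgebra F Γ) (M := M)
  have hnt : Nontrivial M := IsSimpleModule.nontrivial (MonoidAlgebra F Γ) M
  have hfd : FiniteDimensional K M := inferInstance
  -- the action by `K`-linear maps
  let L : Γ →* Module.End K M :=
    { toFun := fun g =>
        { toFun := fun m => MonoidAlgebra.of F Γ g • m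
          map_add' := fun x y => smul_add _ _ _
          map_smul' := fun k m => hKA k _ m }
      map_one' := by
        ext m
        change MonoidAlgebra.of F Γ 1 • m = m
        rw [map_one, one_smul]
      map_mul' := fun g h => by
        ext m
        change MonoidAlgebra.of F Γ (g * h) • m = MonoidAlgebra.of F Γ g • MonoidAlgebra.of F Γ h • m
        rw [map_mul, mul_smul] }
  have hL : ∀ g m, L g m = MonoidAlgebra.of F Γ g • m := fun g m => rfl
  -- scalars from `F` are scalars from `K`
  have hFK : ∀ r : F, ∃ k : K, ∀ m : M, algebraMap F (MonoidAlgebra F Γ) r • m = k • m := by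
    intro r
    obtain ⟨k, hk⟩ := hKsc
      { toFun := fun m => algebraMap F (MonoidAlgebra F Γ) r • m
        map_add' := fun x y => smul_add _ _ _
        map_smul' := fun a m => by
          rw [← mul_smul, ← mul_smul, Algebra.commutes]
          rfl }
    exact ⟨k, hk⟩
  -- a map commuting with everything is a scalar
  have hscal : ∀ φ : Module.End K M, (∀ g, φ * L g = L g * φ) → ∃ k : K, ∀ m, φ m = k • m := by
    intro φ hφ
    have hlin : ∀ (a : MonoidAlgebra F Γ), ∀ m, φ (a • m) = a • φ m := by
      intro a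
      induction a using MonoidAlgebra.induction_on with
      | of g => exact fun m => LinearMap.congr_fun (hφ g) m
      | add x y hx hy =>
        intro m
        rw [add_smul, map_add, hx, hy, add_smul]
      | smul r f hf =>
        intro m
        obtain ⟨k, hk⟩ := hFK r
        rw [Algebra.smul_def, mul_smul, mul_smul, hk, hk, map_smul, hf]
    exact hKsc { toFun := φ, map_add' := φ.map_add, map_smul' := fun a m => hlin a m }
  let J := {i : ι // ∃ t ∈ T i, L t ≠ 1}
  have : Fintype J := Fintype.ofFinite J
  have hJ : ∀ i, (∃ h : (∃ t ∈ T i, L t ≠ 1), True) ∨ ∀ t ∈ T i, L t = 1 := by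
    intro i
    by_cases h : ∃ t ∈ T i, L t ≠ 1
    · exact Or.inl ⟨h, trivial⟩
    · push Not at h
      exact Or.inr h
  -- cardinality
  have hpK : ∀ i : J, p i < Nat.card K := by
    rintro ⟨i, t0, ht0, hLt0⟩
    have hpf : Fact (p i).Prime := ⟨hp i⟩
    let θ : T i →* (Module.End K M)ˣ := (L.comp (T i).subtype).toHomUnits
    have hθ : ∀ t : T i, ((θ t : (Module.End K M)ˣ) : Module.End K M) = L t := fun t => rfl
    have hrange : IsPGroup (p i) θ.range :=
      (hT i).of_surjective θ.rangeRestrict θ.rangeRestrict_surjective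
    have hntr : Nontrivial θ.range := by
      refine ⟨⟨⟨θ ⟨t0, ht0⟩, ⟨_, rfl⟩⟩, 1, fun h => hLt0 ?_⟩⟩
      have h2 := congrArg (fun z : θ.range => ((z : (Module.End K M)ˣ) : Module.End K M)) h
      exact h2
    have hfinr : Finite θ.range := Finite.of_surjective θ.rangeRestrict θ.rangeRestrict_surjective
    obtain ⟨⟨⟨z, ⟨t, rfl⟩⟩, hzc⟩, hz1⟩ := @exists_ne _ (hrange.center_nontrivial) 1
    rw [Subgroup.mem_center_iff] at hzc
    have hLt : L t ≠ 1 := by
      intro h
      apply hz1
      apply Subtype.ext
      apply Subtype.ext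
      apply Units.ext
      exact h
    have hcommT : ∀ s ∈ T i, L t * L s = L s * L t := by
      intro s hs
      have h2 := hzc ⟨θ ⟨s, hs⟩, ⟨_, rfl⟩⟩
      have h3 := congrArg (fun z : θ.range => ((z : (Module.End K M)ˣ) : Module.End K M)) h2
      exact h3.symm
    have hall : ∀ g, L t * L g = L g * L t := by
      refine gen_induction T hgen (fun g => L t * L g = L g * L t) ?_ ?_ ?_
      · intro j s hs
        by_cases hij : i = j
        · subst hij
          exact hcommT s hs
        · rw [← map_mul, ← map_mul, hcomm i j hij t t.2 s hs]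
      · rw [map_one, mul_one, one_mul]
      · intro x y hx hy
        rw [map_mul, ← mul_assoc, hx, mul_assoc, hy, mul_assoc]
    obtain ⟨k, hk⟩ := hscal (L t) hall
    have hkpow : ∀ n : ℕ, ∀ m : M, L ((t : Γ) ^ n) m = k ^ n • m := by
      intro n
      induction n with
      | zero =>
        intro m
        rw [pow_zero, map_one, pow_zero, one_smul]
        rfl
      | succ n ih =>
        intro m
        rw [pow_succ, map_mul, pow_succ, mul_smul, Module.End.mul_apply, hk, ih]
    obtain ⟨n, hn⟩ := hT i t
    have hn' : (t : Γ) ^ (p i ^ n) = 1 := congrArg Subtype.val hn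
    obtain ⟨m0, hm0⟩ := exists_ne (0 : M)
    have hkn : k ^ (p i ^ n) = 1 := by
      have h2 := hkpow (p i ^ n) m0
      rw [hn', map_one] at h2
      have h3 : (k ^ (p i ^ n) - 1) • m0 = 0 := by
        rw [sub_smul, one_smul, ← h2]
        exact sub_self _
      exact sub_eq_zero.mp ((smul_eq_zero.mp h3).resolve_right hm0)
    have hk1 : k ≠ 1 := by
      rintro rfl
      apply hLt
      ext m
      rw [hk, one_smul]
      rfl
    have hk0 : k ≠ 0 := by
      rintro rfl
      rw [zero_pow (pow_pos (hp i).pos n).ne'] at hkn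
      exact zero_ne_one hkn
    let κ : Kˣ := Units.mk0 k hk0
    have hκ : κ ^ (p i ^ n) = 1 := by
      apply Units.ext
      exact hkn
    obtain ⟨l, -, hl⟩ := (Nat.dvd_prime_pow (hp i)).mp (orderOf_dvd_of_pow_eq_one hκ)
    have hl0 : l ≠ 0 := by
      rintro rfl
      rw [pow_zero, orderOf_eq_one_iff] at hl
      exact hk1 (congrArg Units.val hl)
    have h4 : p i ∣ Nat.card Kˣ := by
      have h5 : p i ∣ orderOf κ := by
        rw [hl]
        exact dvd_pow_self _ hl0
      exact h5.trans (orderOf_dvd_natCard κ)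
    have h5 : Nat.card Kˣ < Nat.card K := by
      rw [Nat.card_units]
      have : 0 < Nat.card K := Nat.card_pos
      omega
    exact lt_of_le_of_lt (Nat.le_of_dvd Nat.card_pos h4) h5
  have hcard : Fintype.card J < Nat.card K := by
    have h1 : Fintype.card J ≤ (Finset.Ico 2 (Nat.card K)).card := by
      rw [← Finset.card_univ]
      apply Finset.card_le_card_of_injOn (fun i : J => p i)
      · intro i _
        simp only [Finset.coe_Ico, Set.mem_Ico]
        exact ⟨(hp _).two_le, hpK i⟩
      · intro i _ j _ hij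
        exact Subtype.ext (hinj hij)
    rw [Nat.card_Ico] at h1
    have : 0 < Nat.card K := Nat.card_pos
    omega
  -- the algebras
  let R : J → Subalgebra K (Module.End K M) := fun i => Algebra.adjoin K (L '' T i)
  have hRmem : ∀ i : J, ∀ t ∈ T i, L t ∈ R i := fun i t ht =>
    Algebra.subset_adjoin ⟨t, ht, rfl⟩
  obtain ⟨v, hv⟩ := irr_case R (by
      rintro ⟨i, hi⟩ ⟨j, hj⟩ hij x hx y hy
      have hij' : i ≠ j := fun h => hij (Subtype.ext h)
      have h1 : ∀ s ∈ T i, Commute (L s) y := by
        intro s hs
        refine Algebra.commute_of_mem_adjoin_of_forall_mem_commute hy ?_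
        rintro _ ⟨t, ht, rfl⟩
        change L s * L t = L t * L s
        rw [← map_mul, ← map_mul, hcomm i j hij' s hs t ht]
      have h2 : Commute y x := by
        refine Algebra.commute_of_mem_adjoin_of_forall_mem_commute hx ?_
        rintro _ ⟨t, ht, rfl⟩
        exact (h1 t ht).symm
      exact h2.eq.symm) (by
      intro W hW
      -- `W` is an `A`-submodule
      have hWg : ∀ g : Γ, ∀ m ∈ W, L g m ∈ W := by
        refine gen_induction T hgen (fun g => ∀ m ∈ W, L g m ∈ W) ?_ ?_ ?_
        · intro i t ht m hm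
          rcases hJ i with ⟨h, -⟩ | h
          · exact hW ⟨i, h⟩ _ (hRmem ⟨i, h⟩ t ht) m hm
          · rw [h t ht]
            exact hm
        · intro m hm
          rw [map_one]
          exact hm
        · intro x y hx hy m hm
          rw [map_mul]
          exact hx _ (hy m hm)
      let WA : Submodule (MonoidAlgebra F Γ) M :=
        { W.toAddSubmonoid with
          smul_mem' := fun a m hm => smul_mem_of_gen W.toAddSubgroup (by
            intro r m hm
            obtain ⟨k, hk⟩ := hFK r
            rw [hk]
            exact W.smul_mem k hm) hWg a m hm }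
      have hWA : ∀ m, m ∈ WA ↔ m ∈ W := fun m => Iff.rfl
      rcases eq_bot_or_eq_top WA with h | h
      · left
        rw [Submodule.eq_bot_iff]
        intro m hm
        rw [← hWA, h, Submodule.mem_bot] at hm
        exact hm
      · right
        rw [Submodule.eq_top_iff']
        intro m
        rw [← hWA, h]
        exact Submodule.mem_top) (by
      intro φ hφ
      have hφg : ∀ g : Γ, φ * L g = L g * φ := by
        refine gen_induction T hgen (fun g => φ * L g = L g * φ) ?_ ?_ ?_
        · intro i t ht
          rcases hJ i with ⟨h, -⟩ | h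
          · exact hφ ⟨i, h⟩ _ (hRmem ⟨i, h⟩ t ht)
          · rw [h t ht, mul_one, one_mul]
        · rw [map_one, mul_one, one_mul]
        · intro x y hx hy
          rw [map_mul, ← mul_assoc, hx, mul_assoc, hy, mul_assoc]
      obtain ⟨k, hk⟩ := hscal φ hφg
      refine ⟨k, ?_⟩
      ext m
      rw [hk]
      rfl) hcard (fun i => u i) (fun i => w i)
  refine ⟨v, fun i t ht hfix => ?_⟩
  rcases hJ i with ⟨h, -⟩ | h
  · have h1 := hv ⟨i, h⟩ (L t - 1) ((R ⟨i, h⟩).sub_mem (hRmem ⟨i, h⟩ t ht) (R ⟨i, h⟩).one_mem) (by
      rw [LinearMap.sub_apply, hL, hfix]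
      exact sub_self _)
    rw [LinearMap.sub_apply, hL] at h1
    exact sub_eq_zero.mp h1
  · have h1 := h t ht
    rw [← hL, h1]
    rfl

end

end Pool.Agent.Helper88.SL
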