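import Mathlib
import Pool.Agent.Helper88.SL.Simple

set_option autoImplicit false

/-!
Commuting `p i`-groups acting coprimely: simultaneous good vectors with shifts and targets.
-/

namespace Pool.Agent.Helper88.SL

open Module Function MonoidAlgebra

universe u v

theorem good_module {F : Type*} [Field F] {Γ : Type*} [Group Γ] [Finite Γ]
    [NeZero (Nat.card Γ : F)] {ι : Type v} [Finite ι] (p : ι → ℕ) (T : ι → Subgroup Γ)
    (hp : ∀ i, (p i).Prime) (hinj : Injective p) (hT : ∀ i, IsPGroup (p i) (T i))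
    (hcomm : ∀ i j, i ≠ j → ∀ x ∈ T i, ∀ y ∈ T j, x * y = y * x) (hgen : ⨆ i, T i = ⊤) :
    ∀ (n : ℕ) (M : Type u) [AddCommGroup M] [Module (MonoidAlgebra F Γ) M] [Finite M],
      Nat.card M = n → ∀ u w : ι → M,
    ∃ v : M, ∀ i, ∀ t ∈ T i, MonoidAlgebra.of F Γ t • (v + w i) = v + w i →
      MonoidAlgebra.of F Γ t • u i = u i := by
  classical
  intro n
  induction n using Nat.strong_induction_on with
  | _ n ih =>
  intro M _ _ _ hn u w
  rcases subsingleton_or_nontrivial M with hs | hnt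
  · exact ⟨0, fun i t _ _ => Subsingleton.elim _ _⟩
  by_cases hsimple : IsSimpleModule (MonoidAlgebra F Γ) M
  · exact simple_case p T hp hinj hT hcomm hgen u w
  -- a proper nonzero submodule
  obtain ⟨C, hC0, hC1⟩ : ∃ C : Submodule (MonoidAlgebra F Γ) M, C ≠ ⊥ ∧ C ≠ ⊤ := by
    by_contra hcon
    push Not at hcon
    apply hsimple
    rw [isSimpleModule_iff]
    exact { eq_bot_or_eq_top := fun C => by
              by_cases h : C = ⊥
              · exact Or.inl h
              · exact Or.inr (hcon C h) }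
  obtain ⟨D, hCD⟩ := exists_isCompl C
  have hD1 : D ≠ ⊤ := by
    rintro rfl
    apply hC0
    have := hCD.inf_eq_bot
    rwa [inf_top_eq] at this
  have hcardlt : ∀ C : Submodule (MonoidAlgebra F Γ) M, C ≠ ⊤ → Nat.card C < n := by
    intro C hC
    rw [← hn]
    have h1 : (C : Set M) ≠ Set.univ := by
      intro h
      apply hC
      exact SetLike.coe_injective h
    have h2 := Set.ncard_lt_card h1
    rwa [← Nat.card_coe_set_eq] at h2
  let E := Submodule.prodEquivOfIsCompl C D hCD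
  obtain ⟨vC, hvC⟩ := ih _ (hcardlt C hC1) C rfl (fun i => (E.symm (u i)).1)
    (fun i => (E.symm (w i)).1)
  obtain ⟨vD, hvD⟩ := ih _ (hcardlt D hD1) D rfl (fun i => (E.symm (u i)).2)
    (fun i => (E.symm (w i)).2)
  refine ⟨E (vC, vD), fun i t ht hfix => ?_⟩
  have h1 : E.symm (E (vC, vD) + w i) = (vC + (E.symm (w i)).1, vD + (E.symm (w i)).2) := by
    rw [map_add, LinearEquiv.symm_apply_apply]
    rfl
  have h2 := congrArg E.symm hfix
  rw [map_smul, h1] at h2
  have h3 := hvC i t ht (congrArg Prod.fst h2)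
  have h4 := hvD i t ht (congrArg Prod.snd h2)
  apply E.symm.injective
  rw [map_smul]
  exact Prod.ext h3 h4

/-- The main linear statement. -/
theorem good_rep {F : Type*} [Field F] {V : Type u} [AddCommGroup V] [Module F V] [Finite V]
    {G : Type*} [Group G] (ρ : G →* Module.End F V) {ι : Type v} [Finite ι] (p : ι → ℕ)
    (hp : ∀ i, (p i).Prime) (hinj : Injective p) (T : ι → Subgroup G) (hfin : ∀ i, Finite (T i))
    (hT : ∀ i, IsPGroup (p i) (T i)) (hpF : ∀ i, (p i : F) ≠ 0)
    (hcomm : ∀ i j, i ≠ j → ∀ x ∈ T i, ∀ y ∈ T j, ρ x * ρ y = ρ y * ρ x) (u w : ι → V) :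
    ∃ v : V, ∀ i, ∀ t ∈ T i, ρ t (v + w i) = v + w i → ρ t (u i) = u i := by
  classical
  have hι : Fintype ι := Fintype.ofFinite ι
  let Γ := ∀ i, T i
  have hΓ : Finite Γ := Pi.finite
  have hcard : NeZero (Nat.card Γ : F) := by
    constructor
    rw [Nat.card_pi, Nat.cast_prod]
    refine Finset.prod_ne_zero_iff.mpr fun i _ => ?_
    have : Fact (p i).Prime := ⟨hp i⟩
    obtain ⟨k, hk⟩ := IsPGroup.iff_card.mp (hT i)
    rw [hk, Nat.cast_pow]
    exact pow_ne_zero _ (hpF i)
  let ρ' : Γ →* Module.End F V := MonoidHom.noncommPiCoprod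
    (fun i => ρ.comp (T i).subtype) (fun i j hij x y => hcomm i j hij x x.2 y y.2)
  have hρ' : ∀ i (t : T i), ρ' (Pi.mulSingle i t) = ρ t := by
    intro i t
    exact MonoidHom.noncommPiCoprod_mulSingle (N := fun i => T i) _ i t
  let T' : ι → Subgroup Γ := fun i => (MonoidHom.mulSingle (fun i => T i) i).range
  have hT'p : ∀ i, IsPGroup (p i) (T' i) := fun i =>
    (hT i).of_surjective _ (MonoidHom.mulSingle (fun i => T i) i).rangeRestrict_surjective
  have hT'c : ∀ i j, i ≠ j → ∀ x ∈ T' i, ∀ y ∈ T' j, x * y = y * x := by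
    rintro i j hij _ ⟨x, rfl⟩ _ ⟨y, rfl⟩
    exact Pi.mulSingle_commute (f := fun i => T i) hij x y
  have hgen : ⨆ i, T' i = ⊤ := by
    have h1 := MonoidHom.noncommPiCoprod_range (ϕ := fun i => MonoidHom.mulSingle (fun i => T i) i)
      (hcomm := fun i j hij x y => Pi.mulSingle_commute (f := fun i => T i) hij x y)
    rw [← h1, MonoidHom.range_eq_top]
    intro g
    refine ⟨g, ?_⟩
    have h2 : (MonoidHom.noncommPiCoprod (fun i => MonoidHom.mulSingle (fun i => T i) i)
        (fun i j hij x y => Pi.mulSingle_commute (f := fun i => T i) hij x y) : Γ →* Γ) =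
        MonoidHom.id Γ := by
      apply MonoidHom.pi_ext
      intro i x
      exact MonoidHom.noncommPiCoprod_mulSingle (N := fun i => T i) _ i x
    rw [h2]
    rfl
  let σ : Representation F Γ V := ρ'
  have hfinM : Finite σ.asModule := inferInstanceAs (Finite V)
  obtain ⟨v, hv⟩ := good_module (F := F) p T' hp hinj hT'p hT'c hgen _ σ.asModule rfl
    (fun i => σ.asModuleEquiv.symm (u i)) (fun i => σ.asModuleEquiv.symm (w i))
  refine ⟨σ.asModuleEquiv v, fun i t ht hfix => ?_⟩
  have h1 := hv i (Pi.mulSingle i ⟨t, ht⟩) ⟨⟨t, ht⟩, rfl⟩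
  have h2 : σ (Pi.mulSingle i ⟨t, ht⟩) = ρ t := hρ' i ⟨t, ht⟩
  have h3 : v + σ.asModuleEquiv.symm (w i) = σ.asModuleEquiv.symm (σ.asModuleEquiv v + w i) := by
    rw [map_add, LinearEquiv.symm_apply_apply]
  rw [h3, ← Representation.asModuleEquiv_symm_map_rho, ← Representation.asModuleEquiv_symm_map_rho,
    h2, hfix] at h1
  exact σ.asModuleEquiv.symm.injective (h1 rfl)

end Pool.Agent.Helper88.SL
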