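import Mathlib
import Pool.Agent.Helper88.SL.Main

set_option autoImplicit false

/-!
The induction over a nilpotent normal subgroup.
-/

namespace Pool.Agent.Helper88.SL

open Function

universe u v

/-- A nontrivial nilpotent normal subgroup contains a nontrivial normal subgroup of prime
exponent in its centre. -/
lemma exists_central {G : Type u} [Group G] [Finite G] (N : Subgroup G) [hN : N.Normal]
    (hnil : Group.IsNilpotent N) (hne : N ≠ ⊥) :
    ∃ (r : ℕ) (Z : Subgroup G), r.Prime ∧ Z.Normal ∧ Z ≤ N ∧ (∀ z ∈ Z, ∀ a ∈ N, z * a = a * z) ∧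
      (∀ z ∈ Z, z ^ r = 1) ∧ ∃ z ∈ Z, z ≠ 1 := by
  -- the centre of `N` is nontrivial
  have hcen : Subgroup.center N ≠ ⊥ := by
    intro h
    have h1 : ∀ n, Subgroup.upperCentralSeries N n = ⊥ := by
      intro n
      induction n with
      | zero => simp
      | succ n ih =>
        rw [Subgroup.eq_bot_iff_forall]
        intro x hx
        rw [Subgroup.mem_upperCentralSeries_succ_iff] at hx
        have h2 : x ∈ Subgroup.center N := by
          rw [Subgroup.mem_center_iff]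
          intro y
          have h3 := hx y
          rw [ih, Subgroup.mem_bot] at h3
          exact (commutatorElement_eq_one_iff_mul_comm.mp h3).symm
        rw [h, Subgroup.mem_bot] at h2
        exact h2
    obtain ⟨n, hn⟩ := hnil.nilpotent
    rw [h1 n] at hn
    apply hne
    rw [Subgroup.eq_bot_iff_forall]
    intro x hx
    have h2 : (⟨x, hx⟩ : N) ∈ (⊥ : Subgroup N) := by rw [hn]; exact Subgroup.mem_top _
    exact congrArg Subtype.val (Subgroup.mem_bot.mp h2)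
  have hcard : Nat.card (Subgroup.center N) ≠ 1 := by
    intro h
    exact hcen (Subgroup.card_eq_one.mp h)
  obtain ⟨r, hr, hrd⟩ := Nat.exists_prime_and_dvd hcard
  have : Fact r.Prime := ⟨hr⟩
  obtain ⟨⟨⟨x, hxN⟩, hxc⟩, hx⟩ := exists_prime_orderOf_dvd_card' (G := Subgroup.center N) r hrd
  have hxr : x ^ r = 1 := by
    have h3 := pow_orderOf_eq_one (⟨⟨x, hxN⟩, hxc⟩ : Subgroup.center N)
    rw [hx] at h3
    exact congrArg (fun z : Subgroup.center N => ((z : N) : G)) h3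
  have hx1 : x ≠ 1 := by
    intro h
    have : (⟨⟨x, hxN⟩, hxc⟩ : Subgroup.center N) = 1 := Subtype.ext (Subtype.ext h)
    rw [this, orderOf_one] at hx
    exact hr.one_lt.ne hx
  let Z : Subgroup G :=
    { carrier := {a | a ∈ N ∧ (∀ b ∈ N, a * b = b * a) ∧ a ^ r = 1}
      one_mem' := ⟨N.one_mem, fun b _ => by rw [one_mul, mul_one], one_pow _⟩
      mul_mem' := by
        rintro a b ⟨ha, ha', ha''⟩ ⟨hb, hb', hb''⟩
        refine ⟨N.mul_mem ha hb, fun c hc => ?_, ?_⟩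
        · rw [mul_assoc, hb' c hc, ← mul_assoc, ha' c hc, mul_assoc]
        · have : Commute a b := ha' b hb
          rw [this.mul_pow, ha'', hb'', one_mul]
      inv_mem' := by
        rintro a ⟨ha, ha', ha''⟩
        refine ⟨N.inv_mem ha, fun c hc => ?_, by rw [inv_pow, ha'', inv_one]⟩
        exact ((show Commute a c from ha' c hc).inv_left).eq }
  refine ⟨r, Z, hr, ?_, fun z hz => hz.1, fun z hz => hz.2.1, fun z hz => hz.2.2,
    ⟨x, ⟨hxN, ?_, hxr⟩, hx1⟩⟩
  · constructor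
    rintro a ⟨ha, ha', ha''⟩ g
    refine ⟨hN.conj_mem a ha g, fun c hc => ?_, by rw [conj_pow, ha'', mul_one, mul_inv_cancel]⟩
    have h1 : g⁻¹ * c * g ∈ N := by
      have := hN.conj_mem c hc g⁻¹
      rwa [inv_inv] at this
    calc g * a * g⁻¹ * c = g * (a * (g⁻¹ * c * g)) * g⁻¹ := by group
      _ = g * ((g⁻¹ * c * g) * a) * g⁻¹ := by rw [ha' _ h1]
      _ = c * (g * a * g⁻¹) := by group
  · intro b hb
    have h1 := Subgroup.mem_center_iff.mp hxc ⟨b, hb⟩
    exact (congrArg Subtype.val h1).symm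

/-- Elements of coprime orders. -/
lemma eq_one_of_pows {G : Type*} [Group G] {x : G} {a b : ℕ} (hab : Nat.Coprime a b)
    (h1 : x ^ a = 1) (h2 : x ^ b = 1) : x = 1 := by
  have h3 := Nat.dvd_gcd (orderOf_dvd_of_pow_eq_one h1) (orderOf_dvd_of_pow_eq_one h2)
  rw [hab] at h3
  exact orderOf_eq_one_iff.mp (Nat.dvd_one.mp h3)

/-- Conjugating a `q`-subgroup of `T N` into `T`. -/
lemma conj_into {G : Type*} [Group G] [Finite G] {q : ℕ} (hq : q.Prime) (N K T E : Subgroup G)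
    (hNT : ∀ a ∈ N, (∃ k : ℕ, a ^ q ^ k = 1) → a ∈ T) (hT : IsPGroup q T) (hE : IsPGroup q E)
    (hTK : T ≤ K) (hNK : N ≤ K) (hEK : E ≤ K) (hK : ∀ k ∈ K, ∃ t ∈ T, ∃ n ∈ N, t * n = k) :
    ∃ n ∈ N, ∀ y ∈ E, n * y * n⁻¹ ∈ T := by
  have hqf : Fact q.Prime := ⟨hq⟩
  -- `T` is a Sylow subgroup of `K`
  obtain ⟨S, hS⟩ : ∃ S : Sylow q K, (S : Subgroup K) = T.subgroupOf K := by
    refine ⟨⟨T.subgroupOf K, hT.comap_subtype, ?_⟩, rfl⟩
    intro Q hQ hle
    apply le_antisymm _ hle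
    rintro ⟨x, hx⟩ hxQ
    obtain ⟨t, ht, n, hn, rfl⟩ := hK x hx
    have htQ : (⟨t, hTK ht⟩ : K) ∈ Q := hle (by rw [Subgroup.mem_subgroupOf]; exact ht)
    have hnQ : (⟨n, hNK hn⟩ : K) ∈ Q := by
      have h3 := Q.mul_mem (Q.inv_mem htQ) hxQ
      have h4 : (⟨t, hTK ht⟩ : K)⁻¹ * ⟨t * n, hx⟩ = ⟨n, hNK hn⟩ := by
        apply Subtype.ext
        simp
      rwa [h4] at h3
    obtain ⟨k, hk⟩ := hQ ⟨_, hnQ⟩
    have hk' : n ^ (q ^ k) = 1 := by
      have := congrArg Subtype.val hk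
      exact congrArg Subtype.val this
    rw [Subgroup.mem_subgroupOf]
    exact T.mul_mem ht (hNT n hn ⟨k, hk'⟩)
  obtain ⟨S', hS'⟩ := (hE.comap_subtype (K := K)).exists_le_sylow
  obtain ⟨k, hk⟩ := MulAction.exists_smul_eq K S' S
  have h3 : ∀ y ∈ E, (k : G) * y * (k : G)⁻¹ ∈ T := by
    intro y hy
    have h4 : (⟨y, hEK hy⟩ : K) ∈ (S' : Subgroup K) := hS' hy
    have h5 : k * ⟨y, hEK hy⟩ * k⁻¹ ∈ (S : Subgroup K) := by
      rw [← hk]
      exact Subgroup.smul_mem_pointwise_smul _ (MulAut.conj k) _ h4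
    rw [hS, Subgroup.mem_subgroupOf] at h5
    exact h5
  obtain ⟨t, ht, n, hn, htn⟩ := hK k k.2
  refine ⟨n, hn, fun y hy => ?_⟩
  have h4 := h3 y hy
  rw [← htn] at h4
  have h5 := T.mul_mem (T.mul_mem (T.inv_mem ht) h4) ht
  have h6 : t⁻¹ * (t * n * y * (t * n)⁻¹) * t = n * y * n⁻¹ := by group
  rwa [h6] at h5

/-- The representation attached to an action by automorphisms. -/
def conjRep {G Z : Type*} [Group G] [CommGroup Z] (r : ℕ) [Module (ZMod r) (Additive Z)]
    (φ : G →* MulAut Z) : G →* Module.End (ZMod r) (Additive Z) where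
  toFun g := AddMonoidHom.toZModLinearMap r (MonoidHom.toAdditive (φ g).toMonoidHom)
  map_one' := by
    apply LinearMap.ext
    intro x
    rw [map_one]
    rfl
  map_mul' g h := by
    apply LinearMap.ext
    intro x
    rw [map_mul]
    rfl

/-- The action version, with a module structure. -/
theorem act_good_aux {G Z : Type u} [Group G] [Finite G] [CommGroup Z] [Finite Z] {r : ℕ}
    (hr : r.Prime) [Module (ZMod r) (Additive Z)] (φ : G →* MulAut Z)
    {ι : Type v} [Finite ι] (p : ι → ℕ) (hp : ∀ i, (p i).Prime) (hinj : Injective p)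
    (hpr : ∀ i, p i ≠ r) (T : ι → Subgroup G) (hT : ∀ i, IsPGroup (p i) (T i))
    (hcomm : ∀ i j, i ≠ j → ∀ x ∈ T i, ∀ y ∈ T j, ∀ z : Z, φ (x * y) z = φ (y * x) z)
    (u w : ι → Z) :
    ∃ z : Z, ∀ i, ∀ t ∈ T i, φ t (z * w i) = z * w i → φ t (u i) = u i := by
  have hrf : Fact r.Prime := ⟨hr⟩
  have hfinV : Finite (Additive Z) := inferInstanceAs (Finite Z)
  have hρ : ∀ (g : G) (x : Z), conjRep r φ g (Additive.ofMul x) = Additive.ofMul (φ g x) :=
    fun g x => rfl
  obtain ⟨v, hv⟩ := good_rep (F := ZMod r) (conjRep r φ) p hp hinj T (fun i => inferInstance) hT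
    (by
      intro i h
      have h0 : r ∣ p i := (ZMod.natCast_eq_zero_iff _ _).mp h
      exact hpr i ((Nat.prime_dvd_prime_iff_eq hr (hp i)).mp h0).symm) (by
      intro i j hij x hx y hy
      rw [← map_mul, ← map_mul]
      apply LinearMap.ext
      intro z
      exact congrArg Additive.ofMul (hcomm i j hij x hx y hy (Additive.toMul z)))
    (fun i => Additive.ofMul (u i)) (fun i => Additive.ofMul (w i))
  refine ⟨Additive.toMul v, fun i t ht hfix => ?_⟩
  have h1 := hv i t ht (congrArg Additive.ofMul hfix)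
  exact congrArg Additive.toMul h1

/-- The action version. -/
theorem act_good {G Z : Type u} [Group G] [Finite G] [CommGroup Z] [Finite Z] {r : ℕ}
    (hr : r.Prime) (hZr : ∀ z : Z, z ^ r = 1) (φ : G →* MulAut Z)
    {ι : Type v} [Finite ι] (p : ι → ℕ) (hp : ∀ i, (p i).Prime) (hinj : Injective p)
    (hpr : ∀ i, p i ≠ r) (T : ι → Subgroup G) (hT : ∀ i, IsPGroup (p i) (T i))
    (hcomm : ∀ i j, i ≠ j → ∀ x ∈ T i, ∀ y ∈ T j, ∀ z : Z, φ (x * y) z = φ (y * x) z)
    (u w : ι → Z) :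
    ∃ z : Z, ∀ i, ∀ t ∈ T i, φ t (z * w i) = z * w i → φ t (u i) = u i :=
  @act_good_aux G Z _ _ _ _ r hr (AddCommGroup.zmodModule (by
    intro x
    exact congrArg Additive.ofMul (hZr (Additive.toMul x)))) φ ι _ p hp hinj hpr T hT hcomm u w

/-- The conjugation action on a normal subgroup of prime exponent. -/
theorem conj_good {G : Type u} [Group G] [Finite G] {r : ℕ} (hr : r.Prime) (Z : Subgroup G)
    (hZn : Z.Normal) (hZc : ∀ a ∈ Z, ∀ b ∈ Z, a * b = b * a) (hZr : ∀ z ∈ Z, z ^ r = 1)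
    {ι : Type v} [Finite ι] (p : ι → ℕ) (hp : ∀ i, (p i).Prime) (hinj : Injective p)
    (hpr : ∀ i, p i ≠ r) (T : ι → Subgroup G) (hT : ∀ i, IsPGroup (p i) (T i))
    (hcomm : ∀ i j, i ≠ j → ∀ x ∈ T i, ∀ y ∈ T j, ∀ z ∈ Z,
      (x * y) * z * (x * y)⁻¹ = (y * x) * z * (y * x)⁻¹) (u w : ι → G) (hu : ∀ i, u i ∈ Z)
    (hw : ∀ i, w i ∈ Z) :
    ∃ z ∈ Z, ∀ i, ∀ t ∈ T i, t * (z * w i) * t⁻¹ = z * w i → t * u i * t⁻¹ = u i := by
  let inst : CommGroup Z :=
    { (inferInstance : Group Z) with mul_comm := fun a b => Subtype.ext (hZc a a.2 b b.2) }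
  obtain ⟨z, hz⟩ := @act_good G Z _ _ inst _ r hr (fun z => Subtype.ext (hZr z z.2))
    (MulAut.conjNormal : G →* MulAut Z) ι _ p hp hinj hpr T hT
    (fun i j hij x hx y hy z => Subtype.ext (by
      have h1 := hcomm i j hij x hx y hy z z.2
      rw [MulAut.conjNormal_apply, MulAut.conjNormal_apply]
      exact h1)) (fun i => ⟨u i, hu i⟩) (fun i => ⟨w i, hw i⟩)
  refine ⟨z, z.2, fun i t ht hfix => ?_⟩
  have h1 := hz i t ht (Subtype.ext (by
    rw [MulAut.conjNormal_apply]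
    exact hfix))
  have h2 := congrArg Subtype.val h1
  rw [MulAut.conjNormal_apply] at h2
  exact h2

end Pool.Agent.Helper88.SL
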