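import Mathlib
import Pool.Agent.Helper88.SL.Grp

set_option autoImplicit false

/-!
The induction over a nilpotent normal subgroup.
-/

namespace Pool.Agent.Helper88.SL

open Function

universe u v

/-- Passing the hypothesis on `N` to a quotient by a central subgroup of prime exponent. -/
lemma hNT_quot {G : Type u} [Group G] {r q : ℕ} (hr : r.Prime) (hq : q.Prime) (N Z T : Subgroup G)
    [Z.Normal] (hZr : ∀ z ∈ Z, z ^ r = 1)
    (hNT : ∀ a ∈ N, (∃ k : ℕ, a ^ q ^ k = 1) → a ∈ T) :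
    ∀ a ∈ N.map (QuotientGroup.mk' Z), (∃ k : ℕ, a ^ q ^ k = 1) →
      a ∈ T.map (QuotientGroup.mk' Z) := by
  rintro _ ⟨a, ha, rfl⟩ ⟨k, hk⟩
  have h1 : a ^ q ^ k ∈ Z := by
    rw [← map_pow] at hk
    exact (QuotientGroup.eq_one_iff _).mp hk
  have h2 : a ^ (q ^ k * r) = 1 := by
    rw [pow_mul]
    exact hZr _ h1
  by_cases hqr : q = r
  · refine ⟨a, hNT a ha ⟨k + 1, ?_⟩, rfl⟩
    rw [pow_succ]
    rw [← hqr] at h2
    exact h2
  · have hco : Nat.Coprime (q ^ k) r :=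
      Nat.Coprime.pow_left k ((Nat.coprime_primes hq hr).mpr hqr)
    obtain ⟨m, hm1, hm2⟩ := Nat.chineseRemainder hco 1 0
    refine ⟨a ^ m, hNT _ (N.pow_mem ha m) ⟨k, ?_⟩, ?_⟩
    · obtain ⟨l, hl⟩ := (Nat.modEq_zero_iff_dvd.mp hm2)
      rw [← pow_mul, hl]
      have : r * l * q ^ k = q ^ k * r * l := by ring
      rw [this, pow_mul, h2, one_pow]
    · rw [map_pow]
      have h3 : (QuotientGroup.mk' Z a) ^ m = (QuotientGroup.mk' Z a) ^ 1 := by
        rw [pow_eq_pow_iff_modEq]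
        exact hm1.of_dvd (orderOf_dvd_of_pow_eq_one hk)
      rw [h3, pow_one]

theorem sigma {ι : Type v} [Finite ι] (p : ι → ℕ) (hp : ∀ i, (p i).Prime) (hinj : Injective p) :
    ∀ (n : ℕ) (G : Type u) [Group G] [Finite G] (N : Subgroup G), N.Normal →
      Group.IsNilpotent N → Nat.card N = n → ∀ (T : ι → Subgroup G),
      (∀ i, IsPGroup (p i) (T i)) →
      (∀ i, ∀ a ∈ N, (∃ k : ℕ, a ^ p i ^ k = 1) → a ∈ T i) →
      (∀ i j, i ≠ j → ∀ x ∈ T i, ∀ y ∈ T j, x * y * x⁻¹ * y⁻¹ ∈ N) →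
      ∀ nn mm : ι → G, (∀ i, nn i ∈ N) → (∀ i, mm i ∈ N) →
      ∃ a ∈ N, ∀ i, ∀ y ∈ T i, (nn i * a) * y * (nn i * a)⁻¹ ∈ T i →
        mm i * y * (mm i)⁻¹ ∈ T i := by
  classical
  intro n
  induction n using Nat.strong_induction_on with
  | _ n ih =>
  intro G _ _ N hN hnil hn T hT hNT hcomm nn mm hnn hmm
  by_cases hbot : N = ⊥
  · subst hbot
    refine ⟨1, Subgroup.one_mem _, fun i y hy _ => ?_⟩
    have h1 : mm i = 1 := Subgroup.mem_bot.mp (hmm i)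
    rw [h1, one_mul, inv_one, mul_one]
    exact hy
  obtain ⟨r, Z, hr, hZn, hZN, hZc, hZr, z₀, hz₀, hz₀1⟩ := exists_central N hnil hbot
  let f : G →* G ⧸ Z := QuotientGroup.mk' Z
  have hf : Surjective f := QuotientGroup.mk'_surjective Z
  have hker : ∀ x, f x = 1 ↔ x ∈ Z := fun x => QuotientGroup.eq_one_iff x
  -- elements of `T i` times `Z`
  have hTZ : ∀ i x, f x ∈ (T i).map f → ∃ t ∈ T i, ∃ z ∈ Z, t * z = x := by
    rintro i x ⟨t, ht, htx⟩
    refine ⟨t, ht, t⁻¹ * x, ?_, by group⟩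
    rw [← hker, map_mul, map_inv, htx, inv_mul_cancel]
  have hconjZ : ∀ a ∈ N, ∀ z ∈ Z, a * z * a⁻¹ = z := by
    intro a ha z hz
    rw [← hZc z hz a ha, mul_assoc, mul_inv_cancel, mul_one]
  -- the induction hypothesis
  have hlt : Nat.card (N.map f) < n := by
    rw [← hn]
    have h1 : Nat.card (N.map f) = Nat.card (N ⧸ (Z.subgroupOf N)) := by
      have h2 : (f.comp N.subtype).range = N.map f := by
        rw [MonoidHom.range_comp, Subgroup.range_subtype]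
      have h3 : (f.comp N.subtype).ker = Z.subgroupOf N := by
        ext x
        rw [MonoidHom.mem_ker, Subgroup.mem_subgroupOf]
        exact hker x
      rw [← h2, ← h3]
      exact (Nat.card_congr (QuotientGroup.quotientKerEquivRange (f.comp N.subtype)).toEquiv).symm
    have h4 := Subgroup.card_eq_card_quotient_mul_card_subgroup (Z.subgroupOf N)
    have h5 : 1 < Nat.card (Z.subgroupOf N) := by
      rw [Subgroup.one_lt_card_iff_ne_bot]
      intro h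
      apply hz₀1
      have : (⟨z₀, hZN hz₀⟩ : N) ∈ Z.subgroupOf N := by
        rw [Subgroup.mem_subgroupOf]; exact hz₀
      rw [h, Subgroup.mem_bot] at this
      exact congrArg Subtype.val this
    rw [h1, h4]
    have h6 : 0 < Nat.card (N ⧸ (Z.subgroupOf N)) := Nat.card_pos
    nlinarith
  have hnil' : Group.IsNilpotent (N.map f) := by
    have hs := MonoidHom.subgroupMap_surjective f N
    exact Group.nilpotent_of_surjective _ hs
  obtain ⟨a₀', ha₀', hIH⟩ := ih _ hlt (G ⧸ Z) (N.map f) (hN.map f hf) hnil' rfl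
    (fun i => (T i).map f) (fun i => (hT i).map f)
    (fun i => hNT_quot hr (hp i) N Z (T i) hZr (hNT i))
    (by
      rintro i j hij _ ⟨x, hx, rfl⟩ _ ⟨y, hy, rfl⟩
      refine ⟨_, hcomm i j hij x hx y hy, ?_⟩
      simp only [map_mul, map_inv])
    (fun i => f (nn i)) (fun i => f (mm i)) (fun i => ⟨_, hnn i, rfl⟩) (fun i => ⟨_, hmm i, rfl⟩)
  obtain ⟨a₀, ha₀, rfl⟩ := ha₀'
  have hxN : ∀ i, nn i * a₀ ∈ N := fun i => N.mul_mem (hnn i) ha₀
  -- the groups `D i`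
  let D : G → ι → Subgroup G := fun x i =>
    T i ⊓ (((T i).map f).comap f).comap (MulAut.conj x).toMonoidHom
  have hD : ∀ x i y, y ∈ D x i ↔ y ∈ T i ∧ f (x * y * x⁻¹) ∈ (T i).map f := fun x i y => Iff.rfl
  have hDD : ∀ i, ∀ y ∈ D (nn i * a₀) i, y ∈ D (mm i) i := by
    intro i y hy
    rw [hD] at hy ⊢
    refine ⟨hy.1, ?_⟩
    have h1 := hIH i (f y) ⟨y, hy.1, rfl⟩ (by
      have h2 := hy.2
      simp only [map_mul, map_inv] at h2 ⊢
      exact h2)
    simp only [map_mul, map_inv]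
    exact h1
  -- conjugators
  have hconj : ∀ x i, p i ≠ r → ∃ z ∈ Z, ∀ y ∈ D x i, z * (x * y * x⁻¹) * z⁻¹ ∈ T i := by
    intro x i hi
    obtain ⟨z, hz, hz'⟩ := conj_into (hp i) Z (((T i).map f).comap f) (T i)
      ((D x i).map (MulAut.conj x).toMonoidHom)
      (fun a ha h => hNT i a (hZN ha) h) (hT i) (((hT i).to_le inf_le_left).map _)
      (fun t ht => ⟨t, ht, rfl⟩)
      (fun a ha => by
        rw [Subgroup.mem_comap, (hker a).mpr ha]
        exact Subgroup.one_mem _)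
      (by
        rintro _ ⟨y, hy, rfl⟩
        exact hy.2) (fun k hk => hTZ i k hk)
    exact ⟨z, hz, fun y hy => hz' _ ⟨y, hy, rfl⟩⟩
  choose! zz hzz hzz' using hconj
  -- apply the main linear statement
  let J := {i : ι // p i ≠ r}
  obtain ⟨z, hz, hz'⟩ := conj_good hr Z hZn (fun a ha b hb => hZc a ha b (hZN hb)) hZr
    (ι := J) (fun i => p i) (fun i => hp i) (fun i j h => Subtype.ext (hinj h)) (fun i => i.2)
    (fun i => D (nn i * a₀) i) (fun i => (hT i).to_le inf_le_left)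
    (by
      intro i j hij x hx y hy z hz
      have h1 := hcomm i j (fun h => hij (Subtype.ext h)) x hx.1 y hy.1
      have h2 : (x * y) = (x * y * x⁻¹ * y⁻¹) * (y * x) := by group
      have h3 : (y * x) * z * (y * x)⁻¹ ∈ Z := hZn.conj_mem z hz _
      have h4 := hconjZ _ h1 _ h3
      have h5 : x * y * z * (x * y)⁻¹ =
        (x * y * x⁻¹ * y⁻¹) * ((y * x) * z * (y * x)⁻¹) * (x * y * x⁻¹ * y⁻¹)⁻¹ := by group
      rw [h5, h4])
    (fun i => zz (mm i) i) (fun i => (zz (nn i * a₀) i)⁻¹) (fun i => hzz _ _ i.2)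
    (fun i => Z.inv_mem (hzz _ _ i.2))
  refine ⟨a₀ * z, N.mul_mem ha₀ (hZN hz), fun i y hy hyT => ?_⟩
  have hzx : z * (nn i * a₀) = (nn i * a₀) * z := hZc z hz _ (hxN i)
  have hyT' : z * ((nn i * a₀) * y * (nn i * a₀)⁻¹) * z⁻¹ ∈ T i := by
    have h1 : nn i * (a₀ * z) = z * (nn i * a₀) := by rw [hzx, mul_assoc]
    rw [h1] at hyT
    have h2 : z * (nn i * a₀) * y * (z * (nn i * a₀))⁻¹ =
      z * ((nn i * a₀) * y * (nn i * a₀)⁻¹) * z⁻¹ := by group
    rwa [h2] at hyT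
  have hfz : f z = 1 := (hker z).mpr hz
  have hyD : y ∈ D (nn i * a₀) i := by
    rw [hD]
    refine ⟨hy, ⟨_, hyT', ?_⟩⟩
    rw [map_mul, map_mul, map_inv, hfz]
    simp
  have hyD' := hDD i y hyD
  by_cases hi : p i = r
  · -- `Z ≤ T i`
    have hZT : ∀ a ∈ Z, a ∈ T i := fun a ha => hNT i a (hZN ha) ⟨1, by
      rw [pow_one, hi]
      exact hZr a ha⟩
    rw [hD] at hyD'
    obtain ⟨t, ht, b, hb, htb⟩ := hTZ i _ hyD'.2
    rw [← htb]
    exact (T i).mul_mem ht (hZT b hb)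
  · -- `Z ⊓ T i = ⊥`
    have hTZ1 : ∀ a ∈ T i, a ∈ Z → a = 1 := by
      intro a ha haZ
      obtain ⟨k, hk⟩ := hT i ⟨a, ha⟩
      have hk' : a ^ p i ^ k = 1 := congrArg Subtype.val hk
      exact eq_one_of_pows (Nat.Coprime.pow_left k ((Nat.coprime_primes (hp i) hr).mpr hi))
        hk' (hZr a haZ)
    have h1 := hzz' (nn i * a₀) i hi y hyD
    set Y := (nn i * a₀) * y * (nn i * a₀)⁻¹ with hY
    have h2 : zz (nn i * a₀) i * Y * (zz (nn i * a₀) i)⁻¹ = z * Y * z⁻¹ := by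
      have h3 := (T i).mul_mem h1 ((T i).inv_mem hyT')
      have h4 : zz (nn i * a₀) i * Y * (zz (nn i * a₀) i)⁻¹ * (z * Y * z⁻¹)⁻¹ ∈ Z := by
        rw [← hker]
        simp only [map_mul, map_inv, hfz, (hker _).mpr (hzz (nn i * a₀) i hi)]
        simp
      exact mul_inv_eq_one.mp (hTZ1 _ h3 h4)
    -- `Y` commutes with `z * zz⁻¹`
    have h5 : Y * (z * (zz (nn i * a₀) i)⁻¹) * Y⁻¹ = z * (zz (nn i * a₀) i)⁻¹ := by
      set w := zz (nn i * a₀) i with hw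
      have hwz : z * w⁻¹ = w⁻¹ * z := by
        have hwZ : w ∈ Z := hzz _ _ hi
        exact hZc z hz w⁻¹ (hZN (Z.inv_mem hwZ))
      -- w Y w⁻¹ = z Y z⁻¹ → Y w⁻¹ z = w⁻¹ z Y
      have h6 : Y * (w⁻¹ * z) = (w⁻¹ * z) * Y := by
        have h7 : w⁻¹ * (w * Y * w⁻¹) * z = w⁻¹ * (z * Y * z⁻¹) * z := by rw [h2]
        calc Y * (w⁻¹ * z) = w⁻¹ * (w * Y * w⁻¹) * z := by group
          _ = w⁻¹ * (z * Y * z⁻¹) * z := h7
          _ = (w⁻¹ * z) * Y := by group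
      rw [hwz, h6, mul_assoc, mul_inv_cancel, mul_one]
    -- replace `Y` by `y`
    have hrep : ∀ x ∈ N, ∀ ζ ∈ Z, (x * y * x⁻¹) * ζ * (x * y * x⁻¹)⁻¹ = y * ζ * y⁻¹ := by
      intro x hx ζ hζ
      have h6 : x⁻¹ * ζ * x = ζ := by
        have := hconjZ x⁻¹ (N.inv_mem hx) ζ hζ
        rwa [inv_inv] at this
      have h7 : (x * y * x⁻¹) * ζ * (x * y * x⁻¹)⁻¹ = x * (y * (x⁻¹ * ζ * x) * y⁻¹) * x⁻¹ := by
        group
      rw [h7, h6]
      exact hconjZ x hx _ (hZn.conj_mem ζ hζ y)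
    have h8 : y * (z * (zz (nn i * a₀) i)⁻¹) * y⁻¹ = z * (zz (nn i * a₀) i)⁻¹ := by
      rw [← hrep (nn i * a₀) (hxN i) _ (Z.mul_mem hz (Z.inv_mem (hzz _ _ hi)))]
      exact h5
    have h9 : y * zz (mm i) i * y⁻¹ = zz (mm i) i := hz' ⟨i, hi⟩ y hyD h8
    have h10 := hzz' (mm i) i hi y hyD'
    have h11 : (mm i * y * (mm i)⁻¹) * zz (mm i) i * (mm i * y * (mm i)⁻¹)⁻¹ = zz (mm i) i := by
      rw [hrep (mm i) (hmm i) _ (hzz _ _ hi)]
      exact h9
    have h12 : zz (mm i) i * (mm i * y * (mm i)⁻¹) * (zz (mm i) i)⁻¹ = mm i * y * (mm i)⁻¹ := by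
      have h13 : (mm i * y * (mm i)⁻¹) * zz (mm i) i = zz (mm i) i * (mm i * y * (mm i)⁻¹) :=
        mul_inv_eq_iff_eq_mul.mp h11
      rw [← h13, mul_assoc, mul_inv_cancel, mul_one]
    rw [h12] at h10
    exact h10

end Pool.Agent.Helper88.SL
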