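import Mathlib
import Pool.Agent.Helper88.SL.Sigma

set_option autoImplicit false

/-!
The lifting lemma.
-/

namespace Pool.Agent.Helper88.SL

open Function
open scoped Pointwise

universe u v

lemma mem_conj_smul {G : Type*} [Group G] (H : Subgroup G) (x y : G) :
    y ∈ MulAut.conj x⁻¹ • H ↔ x * y * x⁻¹ ∈ H := by
  rw [Subgroup.mem_pointwise_smul_iff_inv_smul_mem, ← map_inv, inv_inv]
  rfl

/-- The intersection of all Sylow `q`-subgroups is normal. -/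
lemma core_normal (G : Type*) [Group G] (q : ℕ) :
    (⨅ Q : Sylow q G, (Q : Subgroup G)).Normal := by
  constructor
  intro n hn g
  rw [Subgroup.mem_iInf] at hn ⊢
  intro Q
  have h1 := hn (g⁻¹ • Q)
  have h2 : n ∈ MulAut.conj g⁻¹ • (Q : Subgroup G) := h1
  rwa [mem_conj_smul] at h2

/-- Conjugacy of two Sylow subgroups of `K = T N` by an element of `N`. -/
lemma conj_iff {G : Type*} [Group G] [Finite G] {q : ℕ} (hq : q.Prime)
    (N K T₁ T₂ : Subgroup G) (hNK : N ≤ K)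
    (hNT1 : ∀ a ∈ N, (∃ k : ℕ, a ^ q ^ k = 1) → a ∈ T₁)
    (hNT2 : ∀ a ∈ N, (∃ k : ℕ, a ^ q ^ k = 1) → a ∈ T₂)
    (h1 : IsPGroup q T₁) (h2 : IsPGroup q T₂) (hT1 : T₁ ≤ K) (hT2 : T₂ ≤ K)
    (hK1 : ∀ k ∈ K, ∃ t ∈ T₁, ∃ n ∈ N, t * n = k) (hK2 : ∀ k ∈ K, ∃ t ∈ T₂, ∃ n ∈ N, t * n = k) :
    ∃ n ∈ N, ∀ y, y ∈ T₂ ↔ n * y * n⁻¹ ∈ T₁ := by
  have hqf : Fact q.Prime := ⟨hq⟩
  -- each `T` is a Sylow subgroup of `K`
  have key : ∀ T : Subgroup G, (∀ a ∈ N, (∃ k : ℕ, a ^ q ^ k = 1) → a ∈ T) → T ≤ K →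
      IsPGroup q T → (∀ k ∈ K, ∃ t ∈ T, ∃ n ∈ N, t * n = k) →
      ∃ S : Sylow q K, (S : Subgroup K) = T.subgroupOf K := by
    intro T hNT hTK hT hK
    refine ⟨⟨T.subgroupOf K, hT.comap_subtype, ?_⟩, rfl⟩
    intro Q hQ hle
    apply le_antisymm _ hle
    rintro ⟨x, hx⟩ hxQ
    obtain ⟨t, ht, n, hn, rfl⟩ := hK x hx
    have htQ : (⟨t, hTK ht⟩ : K) ∈ Q := hle (by rw [Subgroup.mem_subgroupOf]; exact ht)
    have hnQ : (⟨n, hNK hn⟩ : K) ∈ Q := by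
      have h3 := Q.mul_mem (Q.inv_mem htQ) hxQ
      have h4 : (⟨t, hTK ht⟩ : K)⁻¹ * ⟨t * n, hx⟩ = ⟨n, hNK hn⟩ := by
        apply Subtype.ext
        simp
      rwa [h4] at h3
    obtain ⟨k, hk⟩ := hQ ⟨_, hnQ⟩
    have hk' : n ^ (q ^ k) = 1 := by
      have := congrArg Subtype.val hk
      exact congrArg Subtype.val this
    rw [Subgroup.mem_subgroupOf]
    exact T.mul_mem ht (hNT n hn ⟨k, hk'⟩)
  obtain ⟨S₁, hS₁⟩ := key T₁ hNT1 hT1 h1 hK1
  obtain ⟨S₂, hS₂⟩ := key T₂ hNT2 hT2 h2 hK2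
  obtain ⟨k, hk⟩ := MulAction.exists_smul_eq K S₂ S₁
  -- `k y k⁻¹ ∈ T₁ ↔ y ∈ T₂`
  have h3 : ∀ y, y ∈ T₂ ↔ (k : G) * y * (k : G)⁻¹ ∈ T₁ := by
    intro y
    constructor
    · intro hy
      have h4 : (⟨y, hT2 hy⟩ : K) ∈ (S₂ : Subgroup K) := by
        rw [hS₂, Subgroup.mem_subgroupOf]; exact hy
      have h5 : k * ⟨y, hT2 hy⟩ * k⁻¹ ∈ (S₁ : Subgroup K) := by
        rw [← hk]
        exact Subgroup.smul_mem_pointwise_smul _ (MulAut.conj k) _ h4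
      rw [hS₁, Subgroup.mem_subgroupOf] at h5
      exact h5
    · intro hy
      have hyK : y ∈ K := by
        have : y = (k : G)⁻¹ * ((k : G) * y * (k : G)⁻¹) * k := by group
        rw [this]
        exact K.mul_mem (K.mul_mem (K.inv_mem k.2) (hT1 hy)) k.2
      have h5 : k * ⟨y, hyK⟩ * k⁻¹ ∈ (S₁ : Subgroup K) := by
        rw [hS₁, Subgroup.mem_subgroupOf]; exact hy
      rw [← hk] at h5
      have h6 : (⟨y, hyK⟩ : K) ∈ (S₂ : Subgroup K) := by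
        obtain ⟨z, hz, hz'⟩ := h5
        have : z = ⟨y, hyK⟩ := by
          have h7 : k * z * k⁻¹ = k * ⟨y, hyK⟩ * k⁻¹ := hz'
          simpa using h7
        rw [← this]
        exact hz
      rw [hS₂, Subgroup.mem_subgroupOf] at h6
      exact h6
  obtain ⟨t, ht, n, hn, htn⟩ := hK1 k k.2
  refine ⟨n, hn, fun y => ?_⟩
  rw [h3, ← htn]
  have h4 : t * n * y * (t * n)⁻¹ = t * (n * y * n⁻¹) * t⁻¹ := by group
  rw [h4]
  constructor
  · intro h
    have h5 := T₁.mul_mem (T₁.mul_mem (T₁.inv_mem ht) h) ht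
    have h6 : t⁻¹ * (t * (n * y * n⁻¹) * t⁻¹) * t = n * y * n⁻¹ := by group
    rwa [h6] at h5
  · intro h
    exact T₁.mul_mem (T₁.mul_mem ht h) (T₁.inv_mem ht)

/-- Elements of `q`-power order of a nilpotent normal subgroup lie in every Sylow `q`-subgroup. -/
lemma mem_sylow_of_nilpotent {G : Type*} [Group G] [Finite G] {q : ℕ} (hq : q.Prime)
    (N : Subgroup G) [hN : N.Normal] (hnil : Group.IsNilpotent N) (P : Sylow q G) (a : G)
    (ha : a ∈ N) (hk : ∃ k : ℕ, a ^ q ^ k = 1) : a ∈ P := by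
  have hqf : Fact q.Prime := ⟨hq⟩
  obtain ⟨S⟩ : Nonempty (Sylow q N) := inferInstance
  have hS : (S : Subgroup N).Normal := inferInstance
  have hc : (S : Subgroup N).Characteristic := S.characteristic_of_normal hS
  have hSn : ((S : Subgroup N).map N.subtype).Normal := inferInstance
  have hSp : IsPGroup q ((S : Subgroup N).map N.subtype) := S.isPGroup'.map _
  have hle : (S : Subgroup N).map N.subtype ≤ P := hSp.le_sylow_of_normal P
  apply hle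
  refine ⟨⟨a, ha⟩, ?_, rfl⟩
  -- `a ∈ S`
  obtain ⟨k, hk⟩ := hk
  have hz : IsPGroup q (Subgroup.zpowers (⟨a, ha⟩ : N)) := by
    rintro ⟨_, m, rfl⟩
    refine ⟨k, Subtype.ext (Subtype.ext ?_)⟩
    change (a ^ m) ^ q ^ k = 1
    rw [← zpow_natCast, ← zpow_mul, mul_comm, zpow_mul, zpow_natCast, hk, one_zpow]
  obtain ⟨S', hS'⟩ := hz.exists_le_sylow
  obtain ⟨g, hg⟩ := MulAction.exists_smul_eq N S S'
  have h1 : g • S = S := Sylow.smul_eq_of_normal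
  rw [h1] at hg
  rw [hg]
  exact hS' (Subgroup.mem_zpowers _)

/-- Property `(*)_q` for one pair of Sylow subgroups gives it for every Sylow subgroup. -/
lemma star_all {G : Type*} [Group G] [Finite G] {q : ℕ} (hq : q.Prime) (P Q : Sylow q G)
    (hPQ : ∀ y ∈ P, y ∈ Q → ∀ R : Sylow q G, y ∈ R) (S : Sylow q G) :
    ∃ x : G, ∀ y ∈ S, x * y * x⁻¹ ∈ S → ∀ R : Sylow q G, y ∈ R := by
  have hqf : Fact q.Prime := ⟨hq⟩
  obtain ⟨g, hg⟩ := MulAction.exists_smul_eq G P S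
  obtain ⟨k, hk⟩ := MulAction.exists_smul_eq G S (g • Q)
  have hmem : ∀ (g : G) (P : Sylow q G) (y : G), y ∈ g • P ↔ g⁻¹ * y * g ∈ P := by
    intro g P y
    have h1 : y ∈ MulAut.conj g⁻¹⁻¹ • (P : Subgroup G) ↔ g⁻¹ * y * g⁻¹⁻¹ ∈ (P : Subgroup G) :=
      mem_conj_smul _ _ _
    rw [inv_inv] at h1
    exact h1
  refine ⟨k⁻¹, fun y hy hy' R => ?_⟩
  have h1 : g⁻¹ * y * g ∈ P := by
    rw [← hmem, hg]
    exact hy
  have h2 : g⁻¹ * y * g ∈ Q := by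
    rw [← hmem, ← hk, hmem]
    rwa [inv_inv] at hy'
  have h3 := hPQ _ h1 h2 (g⁻¹ • R)
  rw [hmem, inv_inv] at h3
  have h4 : g * (g⁻¹ * y * g) * g⁻¹ = y := by group
  rwa [h4] at h3

/-- The lifting lemma. -/
theorem lift_one {G H : Type u} [Group G] [Finite G] [Group H] [Finite H] (f : G →* H)
    (hf : Surjective f) (hnil : Group.IsNilpotent f.ker) {ι : Type v} [Finite ι] (p : ι → ℕ)
    (hp : ∀ i, (p i).Prime) (hinj : Injective p)
    (hstar : ∀ i, ∃ P Q : Sylow (p i) G, ∀ y ∈ P, y ∈ Q → ∀ R : Sylow (p i) G, y ∈ R)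
    (hH : ∀ P : ∀ i, Sylow (p i) H, ∃ x : H, ∀ i, ∀ y ∈ P i, x * y * x⁻¹ ∈ P i →
      ∀ R : Sylow (p i) H, y ∈ R) (P : ∀ i, Sylow (p i) G) :
    ∃ x : G, ∀ i, ∀ y ∈ P i, x * y * x⁻¹ ∈ P i → ∀ R : Sylow (p i) G, y ∈ R := by
  classical
  have hpf : ∀ i, Fact (p i).Prime := fun i => ⟨hp i⟩
  set N : Subgroup G := f.ker with hNdef
  have hfN : ∀ x, f x = 1 ↔ x ∈ N := fun x => MonoidHom.mem_ker.symm
  have hNn : N.Normal := MonoidHom.normal_ker f
  obtain ⟨xb, hxb⟩ := hH (fun i => (P i).mapSurjective hf)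
  obtain ⟨x₀, rfl⟩ := hf xb
  -- the normal subgroups `K i`
  let Cq : ι → Subgroup H := fun i => ⨅ Q : Sylow (p i) H, (Q : Subgroup H)
  have hCn : ∀ i, (Cq i).Normal := fun i => core_normal _ _
  have hCp : ∀ i, IsPGroup (p i) (Cq i) := fun i =>
    ((P i).mapSurjective hf).isPGroup'.to_le (iInf_le _ _)
  let K : ι → Subgroup G := fun i => (Cq i).comap f
  have hKn : ∀ i, (K i).Normal := fun i => (hCn i).comap f
  have hNK : ∀ i, N ≤ K i := by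
    intro i a ha
    change f a ∈ Cq i
    rw [(hfN a).mpr ha]
    exact one_mem _
  let T : ι → Subgroup G := fun i => (P i : Subgroup G) ⊓ K i
  have hTP : ∀ i, T i ≤ P i := fun i => inf_le_left
  have hTK : ∀ i, T i ≤ K i := fun i => inf_le_right
  have hTp : ∀ i, IsPGroup (p i) (T i) := fun i => (P i).isPGroup'.to_le (hTP i)
  have hNT : ∀ i, ∀ a ∈ N, (∃ k : ℕ, a ^ p i ^ k = 1) → a ∈ T i := fun i a ha hk =>
    ⟨mem_sylow_of_nilpotent (hp i) N hnil (P i) a ha hk, hNK i ha⟩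
  -- elements of the intersection lie in `T i`
  have hD : ∀ n ∈ N, ∀ i, ∀ y ∈ P i, (x₀ * n) * y * (x₀ * n)⁻¹ ∈ P i → y ∈ T i := by
    intro n hn i y hy hy'
    refine ⟨hy, ?_⟩
    change f y ∈ Cq i
    rw [Subgroup.mem_iInf]
    apply hxb i (f y) (Subgroup.mem_map_of_mem f hy)
    have h1 := Subgroup.mem_map_of_mem f hy'
    have h2 : f (x₀ * n * y * (x₀ * n)⁻¹) = f x₀ * f y * (f x₀)⁻¹ := by
      rw [map_mul, map_mul, map_mul, map_inv, map_mul, (hfN n).mpr hn, mul_one]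
    rw [h2] at h1
    exact h1
  -- every element of `K i` is a product
  have hKT : ∀ i, ∀ k ∈ K i, ∃ t ∈ T i, ∃ n ∈ N, t * n = k := by
    intro i k hk
    have h1 : f k ∈ ((P i).mapSurjective hf : Subgroup H) := (iInf_le _ _ : Cq i ≤ _) hk
    obtain ⟨a, ha, hak⟩ := h1
    have h2 : a⁻¹ * k ∈ N := by
      rw [← hfN, map_mul, map_inv, hak, inv_mul_cancel]
    refine ⟨a, ⟨ha, ?_⟩, a⁻¹ * k, h2, by group⟩
    change f a ∈ Cq i
    rw [hak]
    exact hk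
  -- the translating elements
  have hconj : ∀ (g : G) (i : ι), ∃ n ∈ N, ∀ y, g * y * g⁻¹ ∈ T i ↔ n * y * n⁻¹ ∈ T i := by
    intro g i
    obtain ⟨n, hn, h1⟩ := conj_iff (hp i) N (K i) (T i) (MulAut.conj g⁻¹ • T i)
      (hNK i) (hNT i)
      (by
        rintro a ha ⟨k, hk⟩
        rw [mem_conj_smul]
        exact hNT i _ (hNn.conj_mem a ha g) ⟨k, by rw [conj_pow, hk, mul_one, mul_inv_cancel]⟩)
      (hTp i) ((hTp i).map _) (hTK i)
      (by
        intro y hy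
        rw [mem_conj_smul] at hy
        have h2 := (hKn i).conj_mem _ (hTK i hy) g⁻¹
        have h3 : g⁻¹ * (g * y * g⁻¹) * g⁻¹⁻¹ = y := by group
        rwa [h3] at h2)
      (hKT i)
      (by
        intro k hk
        obtain ⟨t, ht, m, hm, htm⟩ := hKT i _ ((hKn i).conj_mem k hk g)
        refine ⟨g⁻¹ * t * g, ?_, g⁻¹ * m * g, ?_, ?_⟩
        · rw [mem_conj_smul]
          have h3 : g * (g⁻¹ * t * g) * g⁻¹ = t := by group
          rwa [h3]
        · have := hNn.conj_mem m hm g⁻¹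
          rwa [inv_inv] at this
        · calc g⁻¹ * t * g * (g⁻¹ * m * g) = g⁻¹ * (t * m) * g := by group
            _ = k := by rw [htm]; group)
    refine ⟨n, hn, fun y => ?_⟩
    rw [← h1, mem_conj_smul]
  choose cc hcc hcc' using hconj
  -- elements from `(*)`
  have hst : ∀ i, ∃ x : G, ∀ y ∈ P i, x * y * x⁻¹ ∈ P i → ∀ R : Sylow (p i) G, y ∈ R := by
    intro i
    obtain ⟨P', Q', hPQ⟩ := hstar i
    exact star_all (hp i) P' Q' hPQ (P i)
  choose yy hyy using hst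
  obtain ⟨a, ha, hmain⟩ := sigma p hp hinj _ G N hNn hnil rfl T hTp hNT
    (by
      intro i j hij a ha b hb
      have h1 : f a * f b = f b * f a :=
        Subgroup.commute_of_normal_of_disjoint (Cq i) (Cq j) (hCn i) (hCn j)
          (IsPGroup.disjoint_of_ne (p i) (p j) (fun h => hij (hinj h)) _ _ (hCp i) (hCp j))
          (f a) (f b) (hTK i ha) (hTK j hb)
      rw [← hfN, map_mul, map_mul, map_mul, map_inv, map_inv, h1]
      group)
    (fun i => cc x₀ i) (fun i => cc (yy i) i) (fun i => hcc _ _) (fun i => hcc _ _)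
  refine ⟨x₀ * a, fun i y hy hxy R => ?_⟩
  have hyT := hD a ha i y hy hxy
  have hxT : (x₀ * a) * y * (x₀ * a)⁻¹ ∈ T i := ⟨hxy, (hKn i).conj_mem _ (hTK i hyT) _⟩
  have h1 : cc x₀ i * (a * y * a⁻¹) * (cc x₀ i)⁻¹ ∈ T i := by
    rw [← hcc']
    have h2 : x₀ * (a * y * a⁻¹) * x₀⁻¹ = (x₀ * a) * y * (x₀ * a)⁻¹ := by group
    rw [h2]
    exact hxT
  have h2 : (cc x₀ i * a) * y * (cc x₀ i * a)⁻¹ ∈ T i := by
    have h3 : (cc x₀ i * a) * y * (cc x₀ i * a)⁻¹ = cc x₀ i * (a * y * a⁻¹) * (cc x₀ i)⁻¹ := by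
      group
    rw [h3]
    exact h1
  have h3 := hmain i y hyT h2
  rw [← hcc'] at h3
  exact hyy i y hy (hTP i h3) R

end Pool.Agent.Helper88.SL
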