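import Mathlib
import Pool.Agent.Helper88.SL.Lift

set_option autoImplicit false

/-!
Iterating the lifting lemma along a normal series with nilpotent factors.
-/

namespace Pool.Agent.Helper88.SL

open Function
open scoped Pointwise commutatorElement

universe u v

/-- Elementwise form of the conclusion. -/
lemma sync_iff {G : Type u} [Group G] {ι : Type v} (p : ι → ℕ) (P : ∀ i, Sylow (p i) G) :
    (∃ x : G, ∀ i, (P i : Subgroup G) ⊓ MulAut.conj x⁻¹ • (P i : Subgroup G) =
      ⨅ Q : Sylow (p i) G, (Q : Subgroup G)) ↔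
    ∃ x : G, ∀ i, ∀ y ∈ P i, x * y * x⁻¹ ∈ P i → ∀ R : Sylow (p i) G, y ∈ R := by
  constructor
  · rintro ⟨x, hx⟩
    refine ⟨x, fun i y hy hy' R => ?_⟩
    have h1 : y ∈ (P i : Subgroup G) ⊓ MulAut.conj x⁻¹ • (P i : Subgroup G) :=
      ⟨hy, (mem_conj_smul _ _ _).mpr hy'⟩
    rw [hx i, Subgroup.mem_iInf] at h1
    exact h1 R
  · rintro ⟨x, hx⟩
    refine ⟨x, fun i => le_antisymm ?_ (le_inf (iInf_le _ _) (iInf_le _ (x⁻¹ • P i)))⟩
    rintro y ⟨hy1, hy2⟩
    rw [Subgroup.mem_iInf]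
    exact hx i y hy1 ((mem_conj_smul _ _ _).mp hy2)

/-- The chain theorem. -/
theorem chain (G : Type u) [Group G] [Finite G] (k : ℕ) (N : ℕ → Subgroup G)
    [∀ j, (N j).Normal] (h0 : N 0 = ⊥) (hle : ∀ j < k, N j ≤ N (j + 1))
    (hnil : ∀ j < k, Group.IsNilpotent ((N (j + 1)).map (QuotientGroup.mk' (N j))))
    {ι : Type v} [Finite ι] (p : ι → ℕ) (hp : ∀ i, (p i).Prime) (hinj : Injective p)
    (hstar : ∀ j < k, ∀ i, ∃ P Q : Sylow (p i) (G ⧸ N j), ∀ y ∈ P, y ∈ Q →
      ∀ R : Sylow (p i) (G ⧸ N j), y ∈ R)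
    (htop : ∀ P : ∀ i, Sylow (p i) (G ⧸ N k), ∃ x : G ⧸ N k, ∀ i, ∀ y ∈ P i,
      x * y * x⁻¹ ∈ P i → ∀ R : Sylow (p i) (G ⧸ N k), y ∈ R)
    (P : ∀ i, Sylow (p i) G) :
    ∃ x : G, ∀ i, ∀ y ∈ P i, x * y * x⁻¹ ∈ P i → ∀ R : Sylow (p i) G, y ∈ R := by
  -- downward induction
  have key : ∀ m j, j + m = k → ∀ P : ∀ i, Sylow (p i) (G ⧸ N j), ∃ x : G ⧸ N j, ∀ i,
      ∀ y ∈ P i, x * y * x⁻¹ ∈ P i → ∀ R : Sylow (p i) (G ⧸ N j), y ∈ R := by
    intro m
    induction m with
    | zero =>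
      intro j hj P
      rw [add_zero] at hj
      subst hj
      exact htop P
    | succ m ih =>
      intro j hj P
      have hjk : j < k := by omega
      have hle' := hle j hjk
      let f : G ⧸ N j →* G ⧸ N (j + 1) := QuotientGroup.map (N j) (N (j + 1)) (MonoidHom.id G) hle'
      have hf : Surjective f := by
        intro y
        obtain ⟨g, rfl⟩ := QuotientGroup.mk'_surjective (N (j + 1)) y
        exact ⟨QuotientGroup.mk' (N j) g, rfl⟩
      have hker : f.ker = (N (j + 1)).map (QuotientGroup.mk' (N j)) := by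
        ext y
        obtain ⟨g, rfl⟩ := QuotientGroup.mk'_surjective (N j) y
        rw [MonoidHom.mem_ker]
        constructor
        · intro h
          exact ⟨g, (QuotientGroup.eq_one_iff g).mp h, rfl⟩
        · rintro ⟨g', hg', h⟩
          rw [← h]
          exact (QuotientGroup.eq_one_iff g').mpr hg'
      have hnil' : Group.IsNilpotent f.ker := by
        rw [hker]
        exact hnil j hjk
      exact lift_one f hf hnil' p hp hinj (hstar j hjk) (ih (j + 1) (by omega)) P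
  have h1 := key k 0 (Nat.zero_add k)
  have hpf : ∀ i, Fact (p i).Prime := fun i => ⟨hp i⟩
  -- transport from `G ⧸ N 0` to `G`
  let f : G →* G ⧸ N 0 := QuotientGroup.mk' (N 0)
  have hf : Surjective f := QuotientGroup.mk'_surjective _
  have hinjf : Injective f := by
    rw [← MonoidHom.ker_eq_bot_iff, QuotientGroup.ker_mk']
    exact h0
  obtain ⟨x', hx'⟩ := h1 (fun i => (P i).mapSurjective hf)
  obtain ⟨x, rfl⟩ := hf x'
  refine ⟨x, fun i y hy hy' R => ?_⟩
  have h2 := hx' i (f y) (Subgroup.mem_map_of_mem f hy) (by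
    rw [← map_inv, ← map_mul, ← map_mul]
    exact Subgroup.mem_map_of_mem f hy') (R.mapSurjective hf)
  obtain ⟨z, hz, hzy⟩ := h2
  rw [← hinjf hzy]
  exact hz

/-- Sylow subgroups of nilpotent groups. -/
lemma star_of_nilpotent {G : Type u} [Group G] [Finite G] (hG : Group.IsNilpotent G) {q : ℕ}
    (hq : q.Prime) : ∃ P Q : Sylow q G, ∀ y ∈ P, y ∈ Q → ∀ R : Sylow q G, y ∈ R := by
  have hqf : Fact q.Prime := ⟨hq⟩
  obtain ⟨P⟩ : Nonempty (Sylow q G) := inferInstance
  refine ⟨P, P, fun y hy _ R => ?_⟩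
  have hn : (P : Subgroup G).Normal := inferInstance
  exact P.isPGroup'.le_sylow_of_normal R hy

/-- In a trivial group everything is synchronized. -/
lemma sync_of_subsingleton {G : Type u} [Group G] [Subsingleton G] {ι : Type v} (p : ι → ℕ)
    (P : ∀ i, Sylow (p i) G) : ∃ x : G, ∀ i, ∀ y ∈ P i, x * y * x⁻¹ ∈ P i →
      ∀ R : Sylow (p i) G, y ∈ R := by
  refine ⟨1, fun i y _ _ R => ?_⟩
  rw [Subsingleton.elim y 1]
  exact one_mem R

/-- Metanilpotent groups. -/
theorem metanilpotent (G : Type u) [Group G] [Finite G] {ι : Type v} [Finite ι] (p : ι → ℕ)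
    (hp : ∀ i, (p i).Prime) (hinj : Injective p)
    (hstar : ∀ i, ∃ P Q : Sylow (p i) G, ∀ y ∈ P, y ∈ Q → ∀ R : Sylow (p i) G, y ∈ R)
    (N : Subgroup G) [N.Normal] (hN : Group.IsNilpotent N) (hGN : Group.IsNilpotent (G ⧸ N))
    (P : ∀ i, Sylow (p i) G) :
    ∃ x : G, ∀ i, ∀ y ∈ P i, x * y * x⁻¹ ∈ P i → ∀ R : Sylow (p i) G, y ∈ R := by
  have hH : ∀ P : ∀ i, Sylow (p i) (G ⧸ N), ∃ x : G ⧸ N, ∀ i, ∀ y ∈ P i, x * y * x⁻¹ ∈ P i →
      ∀ R : Sylow (p i) (G ⧸ N), y ∈ R := by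
    intro P
    refine ⟨1, fun i y hy _ R => ?_⟩
    have hqf : Fact (p i).Prime := ⟨hp i⟩
    have hn : (P i : Subgroup (G ⧸ N)).Normal := inferInstance
    exact (P i).isPGroup'.le_sylow_of_normal R hy
  refine lift_one (QuotientGroup.mk' N) (QuotientGroup.mk'_surjective N) ?_ p hp hinj hstar hH P
  rw [QuotientGroup.ker_mk']
  exact hN

/-- Solvable groups all of whose quotients have `(*)`. -/
theorem solvable (G : Type u) [Group G] [Finite G] [hs : Group.IsSolvable G] {ι : Type v}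
    [Finite ι] (p : ι → ℕ) (hp : ∀ i, (p i).Prime) (hinj : Injective p)
    (hstar : ∀ (M : Subgroup G) [M.Normal] (i : ι), ∃ P Q : Sylow (p i) (G ⧸ M), ∀ y ∈ P,
      y ∈ Q → ∀ R : Sylow (p i) (G ⧸ M), y ∈ R) (P : ∀ i, Sylow (p i) G) :
    ∃ x : G, ∀ i, ∀ y ∈ P i, x * y * x⁻¹ ∈ P i → ∀ R : Sylow (p i) G, y ∈ R := by
  obtain ⟨n, hn⟩ := hs.solvable
  have hnorm : ∀ j, (derivedSeries G (n - j)).Normal := fun j => derivedSeries_normal G _
  refine chain G n (fun j => derivedSeries G (n - j)) (by rw [Nat.sub_zero]; exact hn) ?_ ?_ p hp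
    hinj (fun j _ i => hstar _ i) ?_ P
  · intro j hj
    have h1 : n - (j + 1) ≤ n - j := by omega
    exact derivedSeries_antitone G h1
  · intro j hj
    have h1 : n - j = (n - (j + 1)) + 1 := by omega
    -- the quotient is commutative
    have hcomm : ∀ a b : ((derivedSeries G (n - (j + 1))).map
        (QuotientGroup.mk' (derivedSeries G (n - j)))), a * b = b * a := by
      rintro ⟨_, a, ha, rfl⟩ ⟨_, b, hb, rfl⟩
      apply Subtype.ext
      change QuotientGroup.mk' _ a * QuotientGroup.mk' _ b =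
        QuotientGroup.mk' _ b * QuotientGroup.mk' _ a
      rw [← map_mul, ← map_mul]
      apply QuotientGroup.eq.mpr
      rw [h1, derivedSeries_succ]
      have h3 : ⁅b⁻¹, a⁻¹⁆ ∈ ⁅derivedSeries G (n - (j + 1)), derivedSeries G (n - (j + 1))⁆ :=
        Subgroup.commutator_mem_commutator (Subgroup.inv_mem _ hb) (Subgroup.inv_mem _ ha)
      have h4 : (a * b)⁻¹ * (b * a) = ⁅b⁻¹, a⁻¹⁆ := by
        rw [commutatorElement_def]
        group
      rw [h4]
      exact h3
    let inst : CommGroup ((derivedSeries G (n - (j + 1))).map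
        (QuotientGroup.mk' (derivedSeries G (n - j)))) :=
      { (inferInstance : Group ((derivedSeries G (n - (j + 1))).map
        (QuotientGroup.mk' (derivedSeries G (n - j))))) with mul_comm := hcomm }
    exact @CommGroup.isNilpotent _ inst
  · intro P
    have h2 : derivedSeries G (n - n) = ⊤ := by rw [Nat.sub_self, derivedSeries_zero]
    have h3 : Subsingleton (G ⧸ derivedSeries G (n - n)) := by
      rw [h2]
      exact QuotientGroup.subsingleton_quotient_top
    exact sync_of_subsingleton p P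

end Pool.Agent.Helper88.SL
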